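import Pool.Agent.Y72.Fj.Fam
import Mathlib.Data.Matrix.Block

/-!
# Block diagonal matrices and the correction by units of commutative subgroups
-/

set_option autoImplicit false
set_option linter.unusedSectionVars false

namespace Pool.Agent.Y72.Fj

open Finset Pool.Agent.Y72.Log
open scoped Classical

section bd

variable {R n J : Type*} [Ring R] [Fintype n] [DecidableEq n] [Fintype J] [DecidableEq J]

/-- the block diagonal matrix -/
noncomputable def bd (X : (Matrix n n R)ˣ) (u : J → Rˣ) : (Matrix (n ⊕ J) (n ⊕ J) R)ˣ where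
  val := Matrix.fromBlocks X.val 0 0 (Matrix.diagonal (fun j => (u j).val))
  inv := Matrix.fromBlocks (X⁻¹).val 0 0 (Matrix.diagonal (fun j => ((u j)⁻¹).val))
  val_inv := by
    rw [Matrix.fromBlocks_multiply, Matrix.diagonal_mul_diagonal]
    simp
  inv_val := by
    rw [Matrix.fromBlocks_multiply, Matrix.diagonal_mul_diagonal]
    simp

lemma bd_val (X : (Matrix n n R)ˣ) (u : J → Rˣ) : (bd X u).val =
    Matrix.fromBlocks X.val 0 0 (Matrix.diagonal (fun j => (u j).val)) := rfl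

lemma bd_mul (X Y : (Matrix n n R)ˣ) (u v : J → Rˣ) : bd X u * bd Y v = bd (X * Y) (u * v) := by
  apply Units.ext
  rw [Units.val_mul, bd_val, bd_val, bd_val, Matrix.fromBlocks_multiply,
    Matrix.diagonal_mul_diagonal]
  simp

lemma bd_one : bd (1 : (Matrix n n R)ˣ) (1 : J → Rˣ) = 1 := by
  apply Units.ext
  rw [bd_val]
  simp [← Matrix.fromBlocks_one]

lemma bd_pow (X : (Matrix n n R)ˣ) (u : J → Rˣ) (k : ℕ) : bd X u ^ k = bd (X ^ k) (u ^ k) := by
  induction k with
  | zero => rw [pow_zero, pow_zero, pow_zero, bd_one]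
  | succ k ih => rw [pow_succ, pow_succ, pow_succ, ih, bd_mul]

lemma bd_near (X : (Matrix n n R)ˣ) (u : J → Rˣ) {q : ℤ} {Z : Matrix n n R} {z : J → R}
    (hX : X.val = 1 + q • Z) (hu : ∀ j, (u j).val = 1 + q • z j) :
    (bd X u).val = 1 + q • Matrix.fromBlocks Z 0 0 (Matrix.diagonal z) := by
  rw [bd_val, ← Matrix.fromBlocks_one, Matrix.fromBlocks_smul, Matrix.fromBlocks_add, hX]
  congr 1
  · simp
  · simp
  · rw [← Matrix.diagonal_smul, ← Matrix.diagonal_one, Matrix.diagonal_add]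
    congr 1
    funext j
    rw [hu]
    rfl

end bd

section main

variable {G n : Type*} [Group G] [Fintype G] [Fintype n] [DecidableEq n]
  {J : Type*} [Fintype J] [DecidableEq J]

lemma TT_bd (X : (Matrix n n (MonoidAlgebra ℤ G))ˣ) (u : J → (MonoidAlgebra ℤ G)ˣ) (g : G) :
    TT (bd X u).val g = TT X.val g + ∑ j, T1 (u j).val g := by
  unfold TT T1
  rw [Finset.sum_comm (s := (Finset.univ : Finset J)), ← Finset.sum_add_distrib]
  apply Finset.sum_congr rfl
  intro x _
  rw [Fintype.sum_sum_type, bd_val]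
  congr 1
  apply Finset.sum_congr rfl
  intro j _
  rw [Matrix.fromBlocks_apply₂₂, Matrix.diagonal_apply_eq]

variable {C : J → Type*} [∀ j, CommGroup (C j)] [∀ j, Fintype (C j)] (ι : ∀ j, C j →* G)
  (hι : ∀ j, Function.Injective (ι j))

/-- the unit over the group ring of `G` -/
noncomputable def pu (X : (Matrix n n (MonoidAlgebra ℤ G))ˣ) (j : J) (e : ℤ) :
    (MonoidAlgebra ℤ G)ˣ :=
  Units.map (mp (ι j)).toMonoidHom (dv (ι j) (hι j) X ^ e)

lemma pu_pow (X : (Matrix n n (MonoidAlgebra ℤ G))ˣ) (j : J) (e : ℤ) (k : ℕ) :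
    pu ι hι X j e ^ k = pu ι hι (X ^ k) j e := by
  unfold pu
  rw [← map_pow, dv_pow, ← zpow_natCast (dv (ι j) (hι j) X ^ e), ← zpow_mul, mul_comm, zpow_mul,
    zpow_natCast]

/-- **the corrected matrix satisfies all congruences** -/
theorem mcw_bd {S : Set G} (hS : ∀ g ∈ S, ∀ x : G, x * g * x⁻¹ ∈ S)
    (X : (Matrix n n (MonoidAlgebra ℤ G))ˣ) (hX : MCS S X) (β : J → ℤ)
    (h1 : ∀ j, ∀ g ∈ (ι j).range, g ∈ S)
    (h2 : ∀ g ∈ S, ∑ j with g ∈ (ι j).range, β j = 1) (κ : ℕ) :
    MCw (bd (X ^ (Fintype.card G * κ))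
      (fun j => pu ι hι X j ((Fintype.card (C j) : ℤ) * (-(β j * κ))))) := by
  intro p hp
  obtain ⟨k, hk, Z, hZ⟩ := exists_pow_near X hp
  have hpow : ∀ K : ℕ, (bd (X ^ (Fintype.card G * κ))
      (fun j => pu ι hι X j ((Fintype.card (C j) : ℤ) * (-(β j * κ))))) ^ K =
      bd ((X ^ K) ^ (Fintype.card G * κ))
        (fun j => pu ι hι (X ^ K) j ((Fintype.card (C j) : ℤ) * (-(β j * κ)))) := by
    intro K
    rw [bd_pow]
    congr 1
    · rw [← pow_mul, ← pow_mul, mul_comm]
    · funext j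
      exact pu_pow ι hι X j _ K
  refine ⟨k, hk, ?_, ?_⟩
  · have e1 : (X ^ k).val = 1 + (p : ℤ) • Z := by rw [Units.val_pow_eq_pow_val]; exact hZ
    have e2 : ∃ Z' : Matrix n n (MonoidAlgebra ℤ G),
        ((X ^ k) ^ (Fintype.card G * κ)).val = 1 + (p : ℤ) • Z' := by
      obtain ⟨c, hc, _⟩ := one_add_pow_eq ((p : ℤ) • Z) (Fintype.card G * κ)
      refine ⟨((Fintype.card G * κ : ℕ) : Matrix n n (MonoidAlgebra ℤ G)) * Z +
        Z * ((p : ℤ) • Z) * c, ?_⟩
      rw [Units.val_pow_eq_pow_val, e1, hc, smul_add, add_assoc]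
      congr 1
      congr 1
      · rw [mul_smul_comm]
      · rw [smul_mul_assoc, smul_mul_assoc]
    obtain ⟨Z', hZ'⟩ := e2
    have e3 : ∀ j, ∃ z : MonoidAlgebra ℤ G, (pu ι hι (X ^ k) j
        ((Fintype.card (C j) : ℤ) * (-(β j * κ)))).val = 1 + (p : ℤ) • z := by
      intro j
      obtain ⟨⟨z, hz⟩, _⟩ := dv_near (ι j) (hι j) (X ^ k) e1
      obtain ⟨w, hw⟩ := zpow_near (dv (ι j) (hι j) (X ^ k)) hz
        ((Fintype.card (C j) : ℤ) * (-(β j * κ)))
      refine ⟨mp (ι j) (((Fintype.card (C j) : ℤ) * (-(β j * κ))) • z + (p : ℤ) • w), ?_⟩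
      show mp (ι j) (dv (ι j) (hι j) (X ^ k) ^ ((Fintype.card (C j) : ℤ) * (-(β j * κ)))).val = _
      rw [hw, ← map_zsmul, ← map_one (mp (ι j)), ← map_add, smul_add, smul_smul, smul_smul,
        mul_comm ((Fintype.card (C j) : ℤ) * (-(β j * κ))) (p : ℤ), ← sq, add_assoc]
    choose z hz using e3
    rw [← Units.val_pow_eq_pow_val, hpow]
    exact ⟨_, bd_near _ _ hZ' hz⟩
  · intro a ha g hg
    have hg1 : g ≠ 1 := by
      rintro rfl
      rw [orderOf_one] at hg
      exact hp.one_lt.ne' (Nat.dvd_one.1 hg)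
    obtain ⟨W, hW⟩ := pow_near hZ (a - 1)
    rw [Nat.sub_add_cancel ha, ← pow_mul] at hW
    set K := k * p ^ (a - 1) with hK
    have e1 : (X ^ K).val = 1 + ((p : ℤ) ^ a) • W := by rw [Units.val_pow_eq_pow_val]; exact hW
    have hgoal : (p : ℤ) ^ (2 * a) = ((p : ℤ) ^ a) ^ 2 := by rw [← pow_mul, mul_comm]
    rw [← Units.val_pow_eq_pow_val, hpow, hgoal]
    show ((p : ℤ) ^ a) ^ 2 ∣ TT (bd ((X ^ K) ^ (Fintype.card G * κ))
        (fun j => pu ι hι (X ^ K) j ((Fintype.card (C j) : ℤ) * (-(β j * κ))))).val g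
    rw [TT_bd]
    have e2 := TT_pow e1 (Fintype.card G * κ) hg1
    rw [← Units.val_pow_eq_pow_val] at e2
    have e3 : ∀ j, ((p : ℤ) ^ a) ^ 2 ∣ T1 (pu ι hι (X ^ K) j
        ((Fintype.card (C j) : ℤ) * (-(β j * κ)))).val g -
        (-(β j * κ)) * (((Finset.univ : Finset G).filter
          (fun x : G => x * g * x⁻¹ ∈ (ι j).range)).card : ℤ) * TT (X ^ K).val g := by
      intro j
      exact T1_push (ι j) (hι j) (X ^ K) e1 _ hg1
    have e4 := Finset.dvd_sum (fun j (_ : j ∈ (Finset.univ : Finset J)) => e3 j)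
    rw [Finset.sum_sub_distrib] at e4
    have e5 : ∑ j, (-(β j * κ)) * (((Finset.univ : Finset G).filter
          (fun x : G => x * g * x⁻¹ ∈ (ι j).range)).card : ℤ) * TT (X ^ K).val g =
        -(κ * (∑ x : G, ∑ j with x * g * x⁻¹ ∈ (ι j).range, β j) * TT (X ^ K).val g) := by
      have e6 : ∀ j, (((Finset.univ : Finset G).filter
          (fun x : G => x * g * x⁻¹ ∈ (ι j).range)).card : ℤ) =
          ∑ x : G, if x * g * x⁻¹ ∈ (ι j).range then 1 else 0 := by
        intro j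
        rw [Finset.sum_boole]
      simp_rw [Finset.sum_filter]
      rw [Finset.sum_comm (s := (Finset.univ : Finset G)), Finset.mul_sum, Finset.sum_mul,
        ← Finset.sum_neg_distrib]
      apply Finset.sum_congr rfl
      intro j _
      rw [e6, Finset.mul_sum, Finset.sum_mul, Finset.mul_sum, Finset.sum_mul,
        ← Finset.sum_neg_distrib]
      apply Finset.sum_congr rfl
      intro x _
      split_ifs <;> ring
    rw [e5] at e4
    by_cases hgS : g ∈ S
    · have e7 : ∑ x : G, ∑ j with x * g * x⁻¹ ∈ (ι j).range, β j = (Fintype.card G : ℤ) := by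
        rw [Finset.sum_congr rfl (fun x _ => h2 _ (hS g hgS x)), Finset.sum_const,
          Finset.card_univ, nsmul_eq_mul, mul_one]
      rw [e7] at e4
      obtain ⟨r1, hr1⟩ := e2
      obtain ⟨r2, hr2⟩ := e4
      rw [Nat.cast_mul] at hr1
      exact ⟨r1 + r2, by linear_combination hr1 + hr2⟩
    · have e7 : ∑ x : G, ∑ j with x * g * x⁻¹ ∈ (ι j).range, β j = 0 := by
        apply Finset.sum_eq_zero
        intro x _
        rw [Finset.filter_false_of_mem, Finset.sum_empty]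
        intro j _ hj
        apply hgS
        have h3 := hS _ (h1 j _ hj) x⁻¹
        have h4 : x⁻¹ * (x * g * x⁻¹) * x⁻¹⁻¹ = g := by group
        rwa [h4] at h3
      rw [e7, mul_zero, zero_mul, neg_zero, sub_zero] at e4
      have e8 := hX p hp a ha K ⟨W, by rw [← Units.val_pow_eq_pow_val]; exact e1⟩ g hgS hg
      rw [hgoal, ← Units.val_pow_eq_pow_val] at e8
      have e9 : ((p : ℤ) ^ a) ^ 2 ∣ TT (X ^ K).val g := e8
      obtain ⟨r1, hr1⟩ := e2
      obtain ⟨r2, hr2⟩ := e4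
      obtain ⟨r3, hr3⟩ := e9
      refine ⟨r1 + r2 + ((Fintype.card G * κ : ℕ) : ℤ) * r3, ?_⟩
      linear_combination hr1 + hr2 + ((Fintype.card G * κ : ℕ) : ℤ) * hr3

end main

section beta

variable {α : Type*} [Fintype α] [PartialOrder α]

/-- the weights -/
noncomputable def bet : α → ℤ :=
  (wellFounded_gt (α := α)).fix (fun x ih => 1 - ∑ y : {y // x < y}, ih y.1 y.2)

lemma bet_eq (x : α) : bet x = 1 - ∑ y : {y // x < y}, bet y.1 :=
  (wellFounded_gt (α := α)).fix_eq _ x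

lemma sum_bet (x : α) : ∑ y with x ≤ y, bet y = 1 := by
  have h1 : (Finset.univ : Finset α).filter (fun y => x ≤ y) =
      insert x ((Finset.univ : Finset α).filter (fun y => x < y)) := by
    ext y
    simp only [Finset.mem_filter, Finset.mem_univ, true_and, Finset.mem_insert]
    rw [le_iff_eq_or_lt, eq_comm]
  rw [h1, Finset.sum_insert (by simp), bet_eq x]
  have h2 : ∑ y : {y // x < y}, bet y.1 = ∑ y with x < y, bet y := by
    rw [← Finset.sum_subtype (s := (Finset.univ : Finset α).filter (fun y => x < y))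
      (p := fun y => x < y) (by simp) (fun y => bet y)]
  rw [h2]
  ring

end beta

end Pool.Agent.Y72.Fj
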