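import Pool.Agent.Y72.Log.App

/-!
# Lifting powers of units along surjections of finite commutative groups
-/

set_option autoImplicit false
set_option linter.unusedSectionVars false

namespace Pool.Agent.Y72.Fj

open Finset Pool.Agent.Y72.Log
open scoped Classical

section near

variable {C : Type*} [CommGroup C] [Finite C]

/-- a power congruent to one -/
lemma exists_pow_near_q (w : (MonoidAlgebra ℤ C)ˣ) {q : ℕ} (hq : 0 < q) :
    ∃ k : ℕ, 0 < k ∧ ∃ z : MonoidAlgebra ℤ C, (w ^ k).val = 1 + (q : ℤ) • z := by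
  haveI : NeZero q := ⟨hq.ne'⟩
  haveI : Fintype C := Fintype.ofFinite C
  haveI : Finite (MonoidAlgebra (ZMod q) C) :=
    Finite.of_injective (fun x : MonoidAlgebra (ZMod q) C => (x.coeff : C → ZMod q))
      (fun x y h => MonoidAlgebra.coeff_injective (DFunLike.coe_injective h))
  let f : MonoidAlgebra ℤ C →+* MonoidAlgebra (ZMod q) C :=
    MonoidAlgebra.mapRingHom C (Int.castRingHom (ZMod q))
  set Y := Units.map f.toMonoidHom w with hY
  haveI : Finite (MonoidAlgebra (ZMod q) C)ˣ := inferInstance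
  refine ⟨orderOf Y, orderOf_pos Y, ?_⟩
  have h1 : f ((w ^ (orderOf Y)).val) = 1 := by
    have h2 := congrArg Units.val (pow_orderOf_eq_one Y)
    rw [Units.val_pow_eq_pow_val, Units.val_one] at h2
    rw [Units.val_pow_eq_pow_val, map_pow]
    exact h2
  obtain ⟨z, hz⟩ := eq_smul_of_dvd ((w ^ (orderOf Y)).val - 1) (q : ℤ) (by
    intro g
    have h2 : f ((w ^ (orderOf Y)).val - 1) = 0 := by
      rw [map_sub, h1, map_one, sub_self]
    have h3 := congrArg (fun M : MonoidAlgebra (ZMod q) C => M.coeff g) h2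
    have h5 := MonoidAlgebra.coeff_mapRingHom (M := C) (Int.castRingHom (ZMod q))
      ((w ^ (orderOf Y)).val - 1) g
    have h6 : (((w ^ (orderOf Y)).val - 1).coeff g : ZMod q) = 0 := h5.symm.trans h3
    exact (ZMod.intCast_zmod_eq_zero_iff_dvd _ q).1 h6)
  exact ⟨z, by rw [← hz]; abel⟩

end near

section lift

variable {B C : Type*} [CommGroup B] [CommGroup C] [Finite B] (f : B →* C)
  (hf : Function.Surjective f)

/-- the norm element -/
noncomputable def nm : MonoidAlgebra ℤ B :=
  haveI : Fintype f.ker := Fintype.ofFinite _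
  ∑ x : f.ker, MonoidAlgebra.single (x : B) 1

lemma nm_mul_single (x : f.ker) : nm f * MonoidAlgebra.single (x : B) 1 = nm f := by
  letI : Fintype f.ker := Fintype.ofFinite _
  show (∑ y : f.ker, MonoidAlgebra.single (y : B) 1) * MonoidAlgebra.single (x : B) 1 =
    ∑ y : f.ker, MonoidAlgebra.single (y : B) 1
  rw [Finset.sum_mul]
  refine Fintype.sum_equiv (Equiv.mulRight x) _ _ ?_
  intro y
  rw [MonoidAlgebra.single_mul_single, one_mul]
  rfl

lemma nm_mul_nm : nm f * nm f = (Nat.card f.ker : ℤ) • nm f := by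
  letI : Fintype f.ker := Fintype.ofFinite _
  have h1 : nm f * nm f = ∑ x : f.ker, nm f * MonoidAlgebra.single (x : B) 1 := by
    rw [← Finset.mul_sum]
    rfl
  rw [h1, Finset.sum_congr rfl (fun x _ => nm_mul_single f x), Finset.sum_const,
    Finset.card_univ, Nat.card_eq_fintype_card, natCast_zsmul]

lemma mp_nm : mp f (nm f) = ((Nat.card f.ker : ℕ) : MonoidAlgebra ℤ C) := by
  letI : Fintype f.ker := Fintype.ofFinite _
  show mp f (∑ y : f.ker, MonoidAlgebra.single (y : B) 1) = _
  rw [map_sum]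
  have h1 : ∀ x : f.ker, mp f (MonoidAlgebra.single (x : B) 1) = 1 := by
    intro x
    rw [mp_single, x.2]
    rfl
  rw [Finset.sum_congr rfl (fun x _ => h1 x), Finset.sum_const, Finset.card_univ,
    Nat.card_eq_fintype_card, nsmul_eq_mul, mul_one]

/-- a section -/
noncomputable def sc : C → B := fun c => (hf c).choose

lemma f_sc (c : C) : f (sc f hf c) = c := (hf c).choose_spec

lemma nm_mul (y : MonoidAlgebra ℤ B) :
    nm f * y = nm f * MonoidAlgebra.mapDomain (sc f hf) (mp f y) := by
  induction y using MonoidAlgebra.induction_linear with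
  | zero => simp [MonoidAlgebra.mapDomain_zero]
  | add x y hx hy => rw [mul_add, hx, hy, map_add, MonoidAlgebra.mapDomain_add, mul_add]
  | single c a =>
    rw [mp_single, MonoidAlgebra.mapDomain_single]
    have h1 : c * (sc f hf (f c))⁻¹ ∈ f.ker := by
      rw [MonoidHom.mem_ker, map_mul, map_inv, f_sc, mul_inv_cancel]
    have h2 := nm_mul_single f ⟨_, h1⟩
    conv_rhs => rw [← h2]
    rw [mul_assoc, MonoidAlgebra.single_mul_single, one_mul]
    congr 2
    show c = c * (sc f hf (f c))⁻¹ * sc f hf (f c)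
    rw [inv_mul_cancel_right]

lemma mp_mapDomain (z : MonoidAlgebra ℤ C) :
    mp f (MonoidAlgebra.mapDomain (sc f hf) z) = z := by
  induction z using MonoidAlgebra.induction_linear with
  | zero => rw [MonoidAlgebra.mapDomain_zero, map_zero]
  | add x y hx hy => rw [MonoidAlgebra.mapDomain_add, map_add, hx, hy]
  | single c a => rw [MonoidAlgebra.mapDomain_single, mp_single, f_sc]

include hf in
/-- **a power of every unit lifts** -/
theorem exists_lift (w : (MonoidAlgebra ℤ C)ˣ) : ∃ k : ℕ, 0 < k ∧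
    ∃ u : (MonoidAlgebra ℤ B)ˣ, Units.map (mp f).toMonoidHom u = w ^ k := by
  haveI : Finite C := Finite.of_surjective f hf
  have hq : 0 < Nat.card f.ker := Nat.card_pos
  obtain ⟨k, hk, z, hz⟩ := exists_pow_near_q w hq
  set q := Nat.card f.ker with hqdef
  set v := (w ^ k)⁻¹ with hv
  set z' := -(z * v.val) with hz'
  set Z := MonoidAlgebra.mapDomain (sc f hf) z with hZ
  set Z' := MonoidAlgebra.mapDomain (sc f hf) z' with hZ'
  have h1 : z + z' + (q : ℤ) • (z * z') = 0 := by
    have h2 : (w ^ k).val * v.val = 1 := Units.mul_inv _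
    rw [hz] at h2
    rw [hz']
    simp only [zsmul_eq_mul] at h2 ⊢
    linear_combination (-z) * h2
  have h3 : nm f * (Z + Z' + (q : ℤ) • (Z * Z')) = 0 := by
    rw [nm_mul f hf, map_add, map_add, map_zsmul, map_mul, hZ, hZ', mp_mapDomain, mp_mapDomain, h1,
      MonoidAlgebra.mapDomain_zero, mul_zero]
  have h4 : (1 + nm f * Z) * (1 + nm f * Z') = 1 := by
    have h5 := nm_mul_nm f
    have h6 : (1 + nm f * Z) * (1 + nm f * Z') =
        1 + nm f * (Z + Z') + (nm f * nm f) * (Z * Z') := by ring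
    rw [h6, h5]
    have h7 : 1 + nm f * (Z + Z') + ((Nat.card f.ker : ℤ) • nm f) * (Z * Z') =
        1 + nm f * (Z + Z' + (q : ℤ) • (Z * Z')) := by
      rw [smul_mul_assoc, mul_add (nm f) (Z + Z'), mul_smul_comm]
      ring
    rw [h7, h3, add_zero]
  refine ⟨k, hk, ⟨1 + nm f * Z, 1 + nm f * Z', h4, by rw [mul_comm, h4]⟩, ?_⟩
  apply Units.ext
  show mp f (1 + nm f * Z) = (w ^ k).val
  rw [map_add, map_one, map_mul, mp_nm, hZ, mp_mapDomain, hz, zsmul_eq_mul]
  push_cast
  rfl

end lift

end Pool.Agent.Y72.Fj
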