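import Pool.Agent.Y72.Fj.Bd
import Pool.Agent.Y72.Fj.Lf
import Pool.Agent.Y72.Log.Fg

/-!
# The images in finite quotients
-/

set_option autoImplicit false
set_option linter.unusedSectionVars false

namespace Pool.Agent.Y72.Fj

open Finset Pool.Agent.Y72.Log
open scoped Classical

section det

variable {A F : Type*} [Ring A] [Field F] {n d J : Type*} [Fintype n] [DecidableEq n] [Fintype d]
  [DecidableEq d] [Fintype J] [DecidableEq J]

lemma det_bd (θ : A →+* Matrix d d F) (X : (Matrix n n A)ˣ) (u : J → Aˣ) :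
    (blkR θ (bd X u).val).det = (blkR θ X.val).det * ∏ j, (θ (u j).val).det := by
  let e : (n × d) ⊕ (d × J) ≃ (n ⊕ J) × d :=
    (Equiv.sumCongr (Equiv.refl _) (Equiv.prodComm d J)).trans (Equiv.sumProdDistrib n J d).symm
  have h1 : (blkR θ (bd X u).val).submatrix e e =
      Matrix.fromBlocks (blkR θ X.val) 0 0 (Matrix.blockDiagonal (fun j => θ (u j).val)) := by
    ext x y
    rcases x with ⟨a, b⟩ | ⟨b, a⟩
    · rcases y with ⟨a', b'⟩ | ⟨b', a'⟩
      · rfl
      · show θ 0 b b' = 0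
        rw [map_zero]
        rfl
    · rcases y with ⟨a', b'⟩ | ⟨b', a'⟩
      · show θ 0 b b' = 0
        rw [map_zero]
        rfl
      · show θ (Matrix.diagonal (fun j => (u j).val) a a') b b' =
          Matrix.blockDiagonal (fun j => θ (u j).val) (b, a) (b', a')
        rw [Matrix.blockDiagonal_apply]
        by_cases h : a = a'
        · subst h
          rw [Matrix.diagonal_apply_eq, if_pos rfl]
        · rw [Matrix.diagonal_apply_ne _ h, if_neg h, map_zero]
          rfl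
  rw [← Matrix.det_submatrix_equiv_self e, h1, Matrix.det_fromBlocks_zero₁₂,
    Matrix.det_blockDiagonal]

end det

section zp

variable {G : Type*} [Group G]

/-- the commutative group structure on a cyclic subgroup -/
@[reducible] def zcg (g : G) : CommGroup (Subgroup.zpowers g) :=
  { (inferInstance : Group (Subgroup.zpowers g)) with
    mul_comm := by
      intro w x
      obtain ⟨j, hj⟩ := w.2
      obtain ⟨k, hk⟩ := x.2
      apply Subtype.ext
      show (w : G) * x = x * w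
      rw [← hj, ← hk]
      exact (Commute.zpow_zpow_self g j k) }

end zp

section dU

variable {C F : Type*} [Group C] [Field F] {d : ℕ}

/-- the determinant of the image of a unit -/
noncomputable def dU (ρ : C →* Matrix (Fin d) (Fin d) F) : (MonoidAlgebra ℤ C)ˣ →* F :=
  Matrix.detMonoidHom.comp ((lrG ρ).toMonoidHom.comp (Units.coeHom _))

lemma dU_apply (ρ : C →* Matrix (Fin d) (Fin d) F) (u : (MonoidAlgebra ℤ C)ˣ) :
    dU ρ u = (lrG ρ u.val).det := rfl

lemma dU_map {B : Type*} [Group B] (f : B →* C) (ρ : C →* Matrix (Fin d) (Fin d) F)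
    (u : (MonoidAlgebra ℤ B)ˣ) : dU ρ (Units.map (mp f).toMonoidHom u) = dU (ρ.comp f) u := by
  rw [dU_apply, dU_apply]
  congr 1
  exact lrG_mp f ρ u.val

end dU

section core

variable {Γ G : Type*} [Group Γ] [Group G] [Fintype G] {n : ℕ}

/-- the surjection of cyclic groups -/
def fz (π : Γ →* G) (γ : Γ) : Subgroup.zpowers γ →* Subgroup.zpowers (π γ) where
  toFun x := ⟨π x, by
    obtain ⟨k, hk⟩ := x.2
    exact ⟨k, by show (π γ) ^ k = π x; rw [← hk, ← map_zpow]⟩⟩
  map_one' := Subtype.ext (map_one π)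
  map_mul' x y := Subtype.ext (map_mul π _ _)

lemma fz_surj (π : Γ →* G) (γ : Γ) : Function.Surjective (fz π γ) := by
  rintro ⟨y, k, hk⟩
  refine ⟨⟨γ ^ k, k, rfl⟩, ?_⟩
  apply Subtype.ext
  show π (γ ^ k) = y
  rw [← hk, map_zpow]

/-- **the core theorem** -/
theorem core (hb : CenI Γ) (π : Γ →* G) (hπ : Function.Surjective π)
    (A : (Matrix (Fin n) (Fin n) (MonoidAlgebra ℤ Γ))ˣ) :
    ∃ k : ℕ, 0 < k ∧ ∃ (r : ℕ) (γ : Fin r → Γ)
      (u : ∀ i, (MonoidAlgebra ℤ (Subgroup.zpowers (γ i)))ˣ), (∀ i, IsOfFinOrder (γ i)) ∧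
      ∀ (F : Type*) [Field F] [CharZero F] (d : ℕ) (ρ : G →* Matrix (Fin d) (Fin d) F),
        (blkR (lrG (ρ.comp π)) A.val).det ^ k =
          ∏ i, (lrG ((ρ.comp π).comp (Subgroup.zpowers (γ i)).subtype) (u i).val).det := by
  set S := Tor π with hSdef
  set X := mpU π A with hX
  have hMC : MCS S X := mcs_of_cen hb π hπ A
  -- the cyclic subgroups
  let α := {D : Subgroup G // ∃ x : Γ, IsOfFinOrder x ∧ D = Subgroup.zpowers (π x)}
  haveI : Fintype α := Fintype.ofFinite α
  let γ : α → Γ := fun D => D.2.choose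
  have hγ : ∀ D : α, IsOfFinOrder (γ D) := fun D => D.2.choose_spec.1
  have hγD : ∀ D : α, D.1 = Subgroup.zpowers (π (γ D)) := fun D => D.2.choose_spec.2
  letI iC : ∀ D : α, CommGroup (Subgroup.zpowers (π (γ D))) := fun D => zcg _
  letI iB : ∀ D : α, CommGroup (Subgroup.zpowers (γ D)) := fun D => zcg _
  haveI iF : ∀ D : α, Fintype (Subgroup.zpowers (π (γ D))) := fun D => Fintype.ofFinite _
  haveI iG : ∀ D : α, Finite (Subgroup.zpowers (γ D)) := fun D =>
    Set.Finite.to_subtype (finite_zpowers.2 (hγ D))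
  let ι : ∀ D : α, Subgroup.zpowers (π (γ D)) →* G := fun D => (Subgroup.zpowers (π (γ D))).subtype
  have hι : ∀ D : α, Function.Injective (ι D) := fun D => Subgroup.subtype_injective _
  have hrange : ∀ (D : α) (g : G), g ∈ (ι D).range ↔ g ∈ D.1 := by
    intro D g
    rw [hγD D]
    show g ∈ (Subgroup.zpowers (π (γ D))).subtype.range ↔ _
    rw [Subgroup.range_subtype]
  have hSc : ∀ g ∈ S, ∀ x : G, x * g * x⁻¹ ∈ S := by
    rintro g ⟨y, hy, hfin⟩ x
    obtain ⟨z, rfl⟩ := hπ x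
    refine ⟨z * y * z⁻¹, by rw [map_mul, map_mul, map_inv, hy], ?_⟩
    obtain ⟨m, hm, h1⟩ := isOfFinOrder_iff_pow_eq_one.1 hfin
    refine isOfFinOrder_iff_pow_eq_one.2 ⟨m, hm, ?_⟩
    rw [conj_pow, h1, mul_one, mul_inv_cancel]
  have h1 : ∀ D : α, ∀ g ∈ (ι D).range, g ∈ S := by
    rintro D g ⟨⟨y, m, hm⟩, rfl⟩
    refine ⟨γ D ^ m, ?_, (hγ D).zpow⟩
    rw [map_zpow]
    exact hm
  have h2 : ∀ g ∈ S, ∑ D with g ∈ (ι D).range, (bet D : ℤ) = 1 := by
    rintro g ⟨y, rfl, hfin⟩
    have h3 := sum_bet (⟨Subgroup.zpowers (π y), y, hfin, rfl⟩ : α)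
    rw [← h3]
    apply Finset.sum_congr _ (fun _ _ => rfl)
    ext D
    simp only [Finset.mem_filter, Finset.mem_univ, true_and]
    rw [hrange]
    show _ ↔ Subgroup.zpowers (π y) ≤ D.1
    rw [Subgroup.zpowers_le]
  -- the lifts
  have hlift := fun D : α => exists_lift (fz π (γ D)) (fz_surj π (γ D)) (dv (ι D) (hι D) X)
  choose κ0 hκ0 u0 hu0 using hlift
  set κ := ∏ D : α, κ0 D with hκ
  have hκpos : 0 < κ := Finset.prod_pos (fun D _ => hκ0 D)
  have hmcw := mcw_bd ι hι hSc X hMC bet h1 h2 κ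
  obtain ⟨M, hM, hdet⟩ := det_rep' _ hmcw
  refine ⟨Fintype.card G * κ * M, Nat.mul_pos (Nat.mul_pos Fintype.card_pos hκpos) hM,
    Fintype.card α, fun i => γ ((Fintype.equivFin α).symm i), fun i =>
      (u0 ((Fintype.equivFin α).symm i) ^ (κ / κ0 ((Fintype.equivFin α).symm i))) ^
        ((Fintype.card (Subgroup.zpowers (π (γ ((Fintype.equivFin α).symm i)))) : ℤ) *
          bet ((Fintype.equivFin α).symm i) * M), fun i => hγ _, ?_⟩
  intro F _ _ d ρ
  have h3 := hdet F (Fin d) ρ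
  rw [det_bd, mul_pow, ← Finset.prod_pow] at h3
  have hA : (blkR (lr ρ) (X ^ (Fintype.card G * κ)).val).det ^ M =
      (blkR (lrG (ρ.comp π)) A.val).det ^ (Fintype.card G * κ * M) := by
    rw [Units.val_pow_eq_pow_val, map_pow, Matrix.det_pow, ← pow_mul]
    congr 2
    exact blkR_mpU π ρ A
  rw [hA] at h3
  have hQ : ∀ D : α, (lr ρ (pu ι hι X D ((Fintype.card (Subgroup.zpowers (π (γ D))) : ℤ) *
      (-(bet D * κ)))).val).det ^ M *
      (lrG ((ρ.comp π).comp (Subgroup.zpowers (γ D)).subtype)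
        ((u0 D ^ (κ / κ0 D)) ^ ((Fintype.card (Subgroup.zpowers (π (γ D))) : ℤ) *
          bet D * M)).val).det = 1 := by
    intro D
    have e1 : (lr ρ (pu ι hι X D ((Fintype.card (Subgroup.zpowers (π (γ D))) : ℤ) *
      (-(bet D * κ)))).val).det = dU (ρ.comp (ι D)) (dv (ι D) (hι D) X ^
        ((Fintype.card (Subgroup.zpowers (π (γ D))) : ℤ) * (-(bet D * κ)))) := by
      rw [← dU_map]
      rfl
    have e2 : (lrG ((ρ.comp π).comp (Subgroup.zpowers (γ D)).subtype)
        ((u0 D ^ (κ / κ0 D)) ^ ((Fintype.card (Subgroup.zpowers (π (γ D))) : ℤ) *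
          bet D * M)).val).det = dU (ρ.comp (ι D)) ((dv (ι D) (hι D) X ^ κ) ^
          ((Fintype.card (Subgroup.zpowers (π (γ D))) : ℤ) * bet D * M)) := by
      have e3 : (dv (ι D) (hι D) X ^ κ) = Units.map (mp (fz π (γ D))).toMonoidHom
          (u0 D ^ (κ / κ0 D)) := by
        rw [map_pow, hu0 D, ← pow_mul, Nat.mul_div_cancel']
        exact Finset.dvd_prod_of_mem _ (Finset.mem_univ D)
      rw [e3, ← map_zpow, dU_map]
      rfl
    rw [e1, e2, ← map_pow, ← map_mul]
    have e4 : (dv (ι D) (hι D) X ^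
        ((Fintype.card (Subgroup.zpowers (π (γ D))) : ℤ) * (-(bet D * κ)))) ^ M *
        (dv (ι D) (hι D) X ^ κ) ^
          ((Fintype.card (Subgroup.zpowers (π (γ D))) : ℤ) * bet D * M) = 1 := by
      rw [← zpow_natCast (dv (ι D) (hι D) X) κ, ← zpow_natCast (_ ^ _) M, ← zpow_mul, ← zpow_mul,
        ← zpow_add]
      have e5 : (Fintype.card (Subgroup.zpowers (π (γ D))) : ℤ) * (-(bet D * κ)) * M +
          κ * ((Fintype.card (Subgroup.zpowers (π (γ D))) : ℤ) * bet D * M) = 0 := by ring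
      rw [e5, zpow_zero]
    rw [e4, map_one]
  have h4 := Finset.prod_congr (rfl : (Finset.univ : Finset α) = Finset.univ) (fun D _ => hQ D)
  rw [Finset.prod_mul_distrib, Finset.prod_const_one] at h4
  have h5 : ∀ a b c : F, a * b = 1 → b * c = 1 → a = c := by
    intro a b c h h'
    have h6 : a * b * c = c := by rw [h, one_mul]
    rwa [mul_assoc, h', mul_one] at h6
  rw [h5 _ _ _ h3 h4]
  exact (Equiv.prod_comp (Fintype.equivFin α).symm (fun D : α =>
    (lrG ((ρ.comp π).comp (Subgroup.zpowers (γ D)).subtype)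
        ((u0 D ^ (κ / κ0 D)) ^ ((Fintype.card (Subgroup.zpowers (π (γ D))) : ℤ) *
          bet D * M)).val).det)).symm

end core

end Pool.Agent.Y72.Fj
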