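import Pool.Agent.Y72.Log.Rat

/-!
# The rational class coefficients for groups with torsion
-/

set_option autoImplicit false
set_option linter.unusedSectionVars false

namespace Pool.Agent.Y72.Fj

open Finset Pool.Agent.H23R2 H219.Wh Pool.Agent.Y72.Log
open scoped Classical

section lc

variable {Γ : Type*} [Group Γ]

/-- every element of infinite order has an additive function on its centraliser which does not
vanish on it -/
def CenI (Γ : Type*) [Group Γ] : Prop :=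
  ∀ c : Γ, ¬ IsOfFinOrder c → ∃ f : Γ → ℤ, AddOn c f ∧ f c ≠ 0

/-- the additive function -/
noncomputable def fi (hb : CenI Γ) (c : Γ) : Γ → ℤ :=
  if h : ¬ IsOfFinOrder c then Classical.choose (hb c h) else fun _ => 0

lemma fi_add (hb : CenI Γ) {c : Γ} (h : ¬ IsOfFinOrder c) : AddOn c (fi hb c) := by
  unfold fi
  rw [dif_pos h]
  exact (Classical.choose_spec (hb c h)).1

lemma fi_ne (hb : CenI Γ) {c : Γ} (h : ¬ IsOfFinOrder c) : fi hb c c ≠ 0 := by
  unfold fi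
  rw [dif_pos h]
  exact (Classical.choose_spec (hb c h)).2

lemma conj_inf {c d : Γ} (hcd : IsConj c d) (h : ¬ IsOfFinOrder c) : ¬ IsOfFinOrder d := by
  intro hd
  apply h
  obtain ⟨t, ht⟩ := isConj_iff.1 hcd.symm
  obtain ⟨n, hn, h1⟩ := isOfFinOrder_iff_pow_eq_one.1 hd
  refine isOfFinOrder_iff_pow_eq_one.2 ⟨n, hn, ?_⟩
  rw [← ht, conj_pow, h1, mul_one, mul_inv_cancel]

lemma pow_inf {c : Γ} (h : ¬ IsOfFinOrder c) {l : ℕ} (hl : l ≠ 0) : ¬ IsOfFinOrder (c ^ l) := by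
  intro hc
  obtain ⟨n, hn, h1⟩ := isOfFinOrder_iff_pow_eq_one.1 hc
  apply h
  refine isOfFinOrder_iff_pow_eq_one.2 ⟨l * n, Nat.mul_pos (Nat.pos_of_ne_zero hl) hn, ?_⟩
  rw [pow_mul, h1]

lemma inf_of_pow {c : Γ} {l : ℕ} (h : ¬ IsOfFinOrder (c ^ l)) : ¬ IsOfFinOrder c :=
  fun hc => h hc.pow

lemma pow_dvd_fi (hb : CenI Γ) {c x : Γ} (h : ¬ IsOfFinOrder c) {l : ℕ} (hx : IsConj c (x ^ l)) :
    (l : ℤ) ∣ fi hb c c := by
  obtain ⟨t, ht⟩ := isConj_iff.1 hx.symm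
  have h1 : (t * x * t⁻¹) ^ l = c := by rw [conj_pow, ht]
  have h2 : (t * x * t⁻¹) * c = c * (t * x * t⁻¹) := by
    rw [← h1, ← pow_succ', ← pow_succ]
  have h3 := (fi_add hb h).pow h2 l
  rw [h1] at h3
  rw [h3, nsmul_eq_mul]
  exact dvd_mul_right _ _

/-- a large prime -/
lemma large (hb : CenI Γ) {c : Γ} (h : ¬ IsOfFinOrder c) {l : ℕ} (hl : (fi hb c c).natAbs < l) :
    ∀ x, ¬ IsConj c (x ^ l) := by
  intro x hx
  have h1 := pow_dvd_fi hb h hx
  have h2 : l ∣ (fi hb c c).natAbs := by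
    rwa [← Int.natCast_dvd]
  have h3 := Nat.le_of_dvd (Int.natAbs_pos.2 (fi_ne hb h)) h2
  omega

lemma CenI.subgroup (hb : CenI Γ) (H : Subgroup Γ) : CenI H := by
  intro c hc
  obtain ⟨f, hf, hfc⟩ := hb c (fun h => hc (by
    obtain ⟨n, hn, h1⟩ := isOfFinOrder_iff_pow_eq_one.1 h
    exact isOfFinOrder_iff_pow_eq_one.2 ⟨n, hn, Subtype.ext h1⟩))
  refine ⟨fun x => f x, ?_, hfc⟩
  intro x y hx hy
  exact hf _ _ (congrArg Subtype.val hx) (congrArg Subtype.val hy)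

end lc

section main

variable {I S : Type*} [Fintype I] [Fintype S] {Γ : Type*} [Group Γ] {gr : S → Γ}
  {A B : I → I → S → ℤ} {p : ℕ}

variable (gr A B)

/-- the rational class coefficient -/
noncomputable def ei (hb : CenI Γ) (c : Γ) : ℚ :=
  ((Dsum gr A B (cocF c (fi hb c)) : ℤ) : ℚ) / (fi hb c c : ℚ)

variable {gr A B}

lemma ei_spec (h : IP gr A B) (hb : CenI Γ) {c : Γ} (hc : ¬ IsOfFinOrder c) {F : Γ → Γ → ℤ}
    {f : ℤ} (hF : LC c F f) : ((Dsum gr A B F : ℤ) : ℚ) = ei gr A B hb c * f := by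
  obtain ⟨p, hp1, hp2⟩ := Nat.exists_infinite_primes ((fi hb c c).natAbs + 1)
  have h1 := ratio (gr := gr) (A := A) (B := B) hp2 h (large hb hc (by omega)) hF
    (LC.of_addOn (fi_add hb hc))
  have h2 : ((fi hb c c : ℤ) : ℚ) ≠ 0 := by exact_mod_cast fi_ne hb hc
  unfold ei
  rw [div_mul_eq_mul_div, eq_div_iff h2]
  have h3 : ((fi hb c c * Dsum gr A B F : ℤ) : ℚ) =
      ((f * Dsum gr A B (cocF c (fi hb c)) : ℤ) : ℚ) := by
    rw [h1]
  push_cast at h3
  linarith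

lemma ei_zero (hb : CenI Γ) {c : Γ} (hc : ∀ s t, ¬ IsConj c (gr s * gr t)) :
    ei gr A B hb c = 0 := by
  unfold ei
  have h1 : Dsum gr A B (cocF c (fi hb c)) = 0 := by
    unfold Dsum
    apply Finset.sum_eq_zero
    intro y _
    rw [cocF_neg _ (hc _ _), smul_zero]
  rw [h1, Int.cast_zero, zero_div]

/-- the slice sum of a class approximates the class coefficient -/
lemma EE_near (hp : p.Prime) (h : IP gr A B) (hb : CenI Γ) {c : Γ} (hc1 : ¬ IsOfFinOrder c)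
    (hc : ∀ x, ¬ IsConj c (x ^ p)) {i : ℕ}
    {m : ℕ} [NeZero m] (hm : m = p ^ (i + 1)) {κ : (ZMod m → Γ) → ZMod m}
    (hκ : IsPh (fun w => IsConj c w) κ) :
    padicNorm p ((EE gr A B (fun w => IsConj c w) κ : ℚ) - ei gr A B hb c) ≤
      (p : ℚ) ^ (-((i + 1 : ℕ) : ℤ)) := by
  haveI : Fact p.Prime := ⟨hp⟩
  set f := fi hb c c with hf
  have hf0 : f ≠ 0 := fi_ne hb hc1
  have hfq : (f : ℚ) ≠ 0 := by exact_mod_cast hf0
  have h1 := eval_int (gr := gr) (A := A) (B := B) hp h hc hm hκ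
    (LC.of_addOn (fi_add hb hc1)) (v := padicValInt p f) (padicValInt_dvd _)
  have h2 := (padicNorm.dvd_iff_norm_le (p := p)).1 (by exact_mod_cast h1)
  have h3 : (EE gr A B (fun w => IsConj c w) κ : ℚ) - ei gr A B hb c =
      ((EE gr A B (fun w => IsConj c w) κ * f - Dsum gr A B (cocF c (fi hb c)) : ℤ) : ℚ) / f := by
    unfold ei
    rw [← hf]
    push_cast
    field_simp
  rw [h3, padicNorm.div]
  have h4 : padicNorm p (f : ℚ) = (p : ℚ) ^ (-(padicValInt p f : ℤ)) := by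
    rw [padicNorm.eq_zpow_of_nonzero hfq, padicValRat.of_int]
  rw [h4, div_le_iff₀ (by positivity [hp.pos])]
  refine h2.trans (le_of_eq ?_)
  rw [← zpow_add₀ (by exact_mod_cast hp.ne_zero)]
  congr 1
  push_cast
  ring

end main

end Pool.Agent.Y72.Fj
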