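import Pool.Agent.Y72.Log.Sum
import Pool.Agent.Y72.Fj.Rat
import Mathlib.NumberTheory.PrimesCongruentOne

/-!
# The sum of the class coefficients over a preimage vanishes, groups with torsion
-/

set_option autoImplicit false
set_option linter.unusedSectionVars false

namespace Pool.Agent.Y72.Fj

open Finset Pool.Agent.H23R2 H219.Wh Pool.Agent.Y72.Log
open scoped Classical

section main

variable {I S : Type*} [Fintype I] [Fintype S] {Γ : Type*} [Group Γ] {gr : S → Γ}
  {A B : I → I → S → ℤ}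

/-- the sum over the classes of the `l`-th roots -/
lemma block_sum (h : IP gr A B) (hb : CenI Γ) {l : ℕ} (hl : l.Prime)
    (hA : ∀ i j a, A i j a ^ l = A i j a) (hB : ∀ i j a, B i j a ^ l = B i j a)
    {c : Γ} (hc : ¬ IsOfFinOrder c) (hd : ei gr A B hb (c ^ l) = 0) {T : Finset (ConjClasses Γ)}
    (hT : T0 gr ⊆ T) :
    padicNorm l (∑ C ∈ T with ConjClasses.mk ((rep C) ^ l) = ConjClasses.mk (c ^ l),
      ei gr A B hb (rep C)) ≤ (l : ℚ) ^ (-1 : ℤ) := by
  haveI : Fact l.Prime := ⟨hl⟩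
  set d := c ^ l with hdd
  have hd1 : ¬ IsOfFinOrder d := pow_inf hc hl.ne_zero
  have hcd : c * d = d * c := by rw [hdd, ← pow_succ', ← pow_succ]
  set lam : ℤ := fi hb d c with hlam
  have h1 : fi hb d d = l * lam := by
    have h2 := (fi_add hb hd1).pow hcd l
    rw [← hdd, nsmul_eq_mul] at h2
    exact h2
  have hlam0 : lam ≠ 0 := by
    intro h0
    rw [h0, mul_zero] at h1
    exact fi_ne hb hd1 h1
  have hlamq : (lam : ℚ) ≠ 0 := by exact_mod_cast hlam0
  set F : Γ → Γ → ℤ := cocF d (fi hb d) with hF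
  have hLC : LC d F (fi hb d d) := LC.of_addOn (fi_add hb hd1)
  set v := padicValInt l lam with hv
  -- the Frobenius relation
  have hdiv : (l : ℤ) ^ (v + 1) ∣ Dsum gr A B (fun w x => F (w ^ l) x) - Dsum gr A B F := by
    have hF' : IsCoc (fun w x => ((F w x : ℤ) : ZMod (l ^ (v + 1)))) := by
      intro w x y
      show ((F w (x * y) : ℤ) : ZMod (l ^ (v + 1))) = _
      rw [hLC.coc w x y, Int.cast_add]
    have h2 := frobenius_relation (p := l) (i := v) (M := ZMod (l ^ (v + 1))) h hA hB (by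
      intro x
      rw [nsmul_eq_mul, ZMod.natCast_self, zero_mul]) hF' (by
      intro w
      by_cases hw : IsConj d w
      · rw [hLC.diag w hw, h1]
        obtain ⟨u, hu⟩ : (l : ℤ) ^ v ∣ lam := padicValInt_dvd _
        have h3 : ((l : ℤ) * lam) = ((l ^ (v + 1) : ℕ) : ℤ) * u := by
          rw [hu]
          push_cast
          ring
        rw [h3, Int.cast_mul, Int.cast_natCast, ZMod.natCast_self, zero_mul]
      · rw [hLC.off w w hw, Int.cast_zero])
    have h3 := map_Dsum (gr := gr) (A := A) (B := B) (Int.castAddHom (ZMod (l ^ (v + 1)))) F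
    have h4 := map_Dsum (gr := gr) (A := A) (B := B) (Int.castAddHom (ZMod (l ^ (v + 1))))
      (fun w x => F (w ^ l) x)
    have h5 : ((Dsum gr A B F : ℤ) : ZMod (l ^ (v + 1))) =
        ((Dsum gr A B (fun w x => F (w ^ l) x) : ℤ) : ZMod (l ^ (v + 1))) :=
      h3.trans (h2.trans h4.symm)
    have h6 := (ZMod.intCast_eq_intCast_iff_dvd_sub _ _ _).1 h5
    exact_mod_cast h6
  have hD0 : Dsum gr A B F = 0 := by
    have h2 := ei_spec h hb hd1 hLC
    rw [hd, zero_mul] at h2
    exact_mod_cast h2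
  rw [hD0, sub_zero] at hdiv
  -- the decomposition
  let FC : ConjClasses Γ → Γ → Γ → ℤ := fun C w x =>
    if ConjClasses.mk w = C then F (w ^ l) x else 0
  have hpow : ∀ w x : Γ, (x⁻¹ * w * x) ^ l = x⁻¹ * w ^ l * x := by
    intro w x
    have := conj_pow (i := l) (a := x⁻¹) (b := w)
    rwa [inv_inv] at this
  have hLCC : ∀ C : ConjClasses Γ, ConjClasses.mk ((rep C) ^ l) = ConjClasses.mk d →
      LC (rep C) (FC C) lam := by
    intro C hC
    refine ⟨?_, ?_, ?_⟩
    · intro w x y
      show (if ConjClasses.mk w = C then F (w ^ l) (x * y) else 0) =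
        (if ConjClasses.mk w = C then F (w ^ l) x else 0) +
        (if ConjClasses.mk (x⁻¹ * w * x) = C then F ((x⁻¹ * w * x) ^ l) y else 0)
      have h2 : ConjClasses.mk (x⁻¹ * w * x) = ConjClasses.mk w := by
        rw [ConjClasses.mk_eq_mk_iff_isConj]
        exact (isConj_iff.2 ⟨x⁻¹, by rw [inv_inv]⟩ : IsConj w (x⁻¹ * w * x)).symm
      rw [h2]
      by_cases hw : ConjClasses.mk w = C
      · rw [if_pos hw, if_pos hw, if_pos hw, hpow]
        exact hLC.coc _ _ _
      · rw [if_neg hw, if_neg hw, if_neg hw, add_zero]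
    · intro w hw
      have hw1 : ConjClasses.mk w = C := (isConj_out_iff C w).1 hw
      show (if ConjClasses.mk w = C then F (w ^ l) w else 0) = lam
      rw [if_pos hw1]
      have h2 : IsConj d (w ^ l) := by
        have h3 := H219.Wh.conj_pow_conj hw l
        exact (ConjClasses.mk_eq_mk_iff_isConj.1 hC).symm.trans h3
      have h3 := hLC.diag _ h2
      have h4 : F (w ^ l) (w ^ l) = l * F (w ^ l) w := by
        have h5 : ∀ n : ℕ, F (w ^ l) (w ^ n) = n * F (w ^ l) w := by
          intro n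
          induction n with
          | zero => rw [pow_zero, hLC.coc.one, Nat.cast_zero, zero_mul]
          | succ n ih =>
            rw [pow_succ, hLC.coc, ih]
            have h6 : (w ^ n)⁻¹ * w ^ l * w ^ n = w ^ l := by
              rw [mul_assoc, ← pow_add, add_comm l n, pow_add]
              group
            rw [h6]
            push_cast
            ring
        exact h5 l
      rw [h4, h1] at h3
      exact mul_left_cancel₀ (by exact_mod_cast hl.ne_zero) h3
    · intro w x hw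
      exact if_neg (fun hc => hw ((isConj_out_iff C w).2 hc))
  have hdec : Dsum gr A B (fun w x => F (w ^ l) x) =
      ∑ C ∈ T with ConjClasses.mk ((rep C) ^ l) = ConjClasses.mk d,
        Dsum gr A B (FC C) := by
    unfold Dsum
    rw [Finset.sum_comm]
    apply Finset.sum_congr rfl
    intro y _
    rw [← Finset.smul_sum]
    congr 1
    set w := gr y.2.2.1 * gr y.2.2.2
    show F (w ^ l) (gr y.2.2.1) = ∑ C ∈ T with
      ConjClasses.mk ((rep C) ^ l) = ConjClasses.mk d,
      if ConjClasses.mk w = C then F (w ^ l) (gr y.2.2.1) else 0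
    rw [Finset.sum_ite_eq]
    by_cases hw : IsConj d (w ^ l)
    · rw [if_pos]
      rw [Finset.mem_filter]
      refine ⟨hT (mem_T0 _ _), ?_⟩
      rw [ConjClasses.mk_eq_mk_iff_isConj]
      exact (H219.Wh.conj_pow_conj (isConj_out w) l).trans hw.symm
    · rw [hLC.off _ _ hw, ite_self]
  have hval : ((Dsum gr A B (fun w x => F (w ^ l) x) : ℤ) : ℚ) =
      (∑ C ∈ T with ConjClasses.mk ((rep C) ^ l) = ConjClasses.mk d,
        ei gr A B hb (rep C)) * lam := by
    rw [hdec, Int.cast_sum, Finset.sum_mul]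
    apply Finset.sum_congr rfl
    intro C hC
    rw [Finset.mem_filter] at hC
    apply ei_spec h hb _ (hLCC C hC.2)
    have h2 := hC.2
    rw [ConjClasses.mk_eq_mk_iff_isConj] at h2
    exact inf_of_pow (conj_inf h2.symm hd1)
  have h7 := (padicNorm.dvd_iff_norm_le (p := l)).1 (by exact_mod_cast hdiv)
  rw [hval, padicNorm.mul, padicNorm.eq_zpow_of_nonzero hlamq, padicValRat.of_int, ← hv] at h7
  have hl0 : (l : ℚ) ≠ 0 := by exact_mod_cast hl.ne_zero
  have hlpos : (0 : ℚ) < (l : ℚ) ^ (v : ℤ) := by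
    apply zpow_pos
    exact_mod_cast hl.pos
  have h8 := mul_le_mul_of_nonneg_right h7 hlpos.le
  rw [mul_assoc, ← zpow_add₀ hl0, neg_add_cancel, zpow_zero, mul_one, ← zpow_add₀ hl0] at h8
  refine h8.trans (le_of_eq ?_)
  congr 1
  push_cast
  ring

/-- **the sum of the class coefficients** -/
theorem sum_ei (h : IP gr A B) (hb : CenI Γ)
    (hA : ∀ l : ℕ, Odd l → ∀ i j a, A i j a ^ l = A i j a)
    (hB : ∀ l : ℕ, Odd l → ∀ i j a, B i j a ^ l = B i j a)
    {R : Γ → Prop} (hR : ∀ x y, IsConj x y → (R x ↔ R y)) (hR1 : ∀ x, R x → ¬ IsOfFinOrder x) {N : ℕ} (hN : N ≠ 0)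
    (hRp : ∀ l : ℕ, l ≡ 1 [MOD N] → ∀ x, R (x ^ l) ↔ R x) {T : Finset (ConjClasses Γ)}
    (hT : T0 gr ⊆ T) : ∑ C ∈ T with R (rep C), ei gr A B hb (rep C) = 0 := by
  set x := ∑ C ∈ T with R (rep C), ei gr A B hb (rep C) with hx
  -- a bound
  obtain ⟨K, hK⟩ : ∃ K : ℕ, ∀ s t : S, (fi hb (gr s * gr t) (gr s * gr t)).natAbs < K := by
    refine ⟨(∑ y : S × S, (fi hb (gr y.1 * gr y.2) (gr y.1 * gr y.2)).natAbs) + 1, ?_⟩
    intro s t
    have h1 := Finset.single_le_sum (f := fun y : S × S =>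
      (fi hb (gr y.1 * gr y.2) (gr y.1 * gr y.2)).natAbs) (fun y _ => Nat.zero_le _)
      (Finset.mem_univ (s, t))
    simp only at h1
    omega
  obtain ⟨l, hl, hlK, hlN⟩ := Nat.exists_prime_gt_modEq_one (k := N) (K + x.num.natAbs + 2) hN
  haveI : Fact l.Prime := ⟨hl⟩
  have hodd : Odd l := hl.odd_of_ne_two (by omega)
  have hzero : ∀ c : Γ, ¬ IsOfFinOrder c → ei gr A B hb (c ^ l) = 0 := by
    intro c hc
    apply ei_zero
    intro s t hst
    have h1 : ¬ IsOfFinOrder (gr s * gr t) := conj_inf hst (pow_inf hc hl.ne_zero)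
    exact large hb h1 (lt_of_lt_of_le (hK s t) (by omega)) c hst.symm
  have hnorm : padicNorm l x ≤ (l : ℚ) ^ (-1 : ℤ) := by
    rw [hx, ← Finset.sum_fiberwise_of_maps_to (s := T.filter (fun C => R (rep C)))
      (t := (T.filter (fun C => R (rep C))).image
        (fun C => ConjClasses.mk ((rep C) ^ l)))
      (g := fun C => ConjClasses.mk ((rep C) ^ l))
      (fun C hC => Finset.mem_image_of_mem _ hC)]
    apply padicNorm.sum_le'
    · intro D hD
      rw [Finset.mem_image] at hD
      obtain ⟨C0, hC0, rfl⟩ := hD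
      rw [Finset.mem_filter] at hC0
      have hc1 : ¬ IsOfFinOrder (rep C0) := hR1 _ hC0.2
      have h1 := block_sum h hb hl (hA l hodd) (hB l hodd) hc1 (hzero _ hc1) hT
      convert h1 using 3
      ext C
      simp only [Finset.mem_filter]
      constructor
      · rintro ⟨⟨h2, _⟩, h3⟩
        exact ⟨h2, h3⟩
      · rintro ⟨h2, h3⟩
        refine ⟨⟨h2, ?_⟩, h3⟩
        rw [← hRp l hlN, hR _ _ (ConjClasses.mk_eq_mk_iff_isConj.1 h3), hRp l hlN]
        exact hC0.2
    · positivity
  by_contra hx0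
  have h1 : padicNorm l ((x.num : ℤ) : ℚ) ≤ (l : ℚ) ^ (-((1 : ℕ) : ℤ)) := by
    have h2 : ((x.num : ℤ) : ℚ) = x * (x.den : ℚ) := (Rat.mul_den_eq_num x).symm
    rw [h2, padicNorm.mul]
    have h3 : padicNorm l ((x.den : ℕ) : ℚ) ≤ 1 := padicNorm.of_nat x.den
    calc padicNorm l x * padicNorm l (x.den : ℚ) ≤ (l : ℚ) ^ (-1 : ℤ) * 1 :=
          mul_le_mul hnorm h3 (padicNorm.nonneg _) (by positivity)
      _ = _ := by rw [mul_one]; rfl
  have h4 := (padicNorm.dvd_iff_norm_le (p := l)).2 h1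
  rw [pow_one] at h4
  have h5 : l ∣ x.num.natAbs := Int.natCast_dvd.1 h4
  have h6 := Nat.le_of_dvd (Int.natAbs_pos.2 (Rat.num_ne_zero.2 hx0)) h5
  omega

/-- **vanishing of the slice sum** -/
theorem EE_van {Q : Type*} [Group Q] [Finite Q] {p : ℕ} (hp : p.Prime) (h : IP gr A B)
    (hb : CenI Γ)
    (hA : ∀ l : ℕ, Odd l → ∀ i j a, A i j a ^ l = A i j a)
    (hB : ∀ l : ℕ, Odd l → ∀ i j a, B i j a ^ l = B i j a)
    (φ : Γ →* Q) {P : Q → Prop} (hP : IsCls p P) (hPi : ∀ x, P (φ x) → ¬ IsOfFinOrder x) {i m : ℕ} [NeZero m] (hm : m = p ^ (i + 1))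
    {κ : (ZMod m → Q) → ZMod m} (hκ : IsPh P κ) :
    (p : ℤ) ^ (i + 1) ∣ EE (fun s => φ (gr s)) A B P κ := by
  haveI : Fact p.Prime := ⟨hp⟩
  rw [← EE_comp]
  set R : Γ → Prop := fun g => P (φ g) with hRdef
  set κ' : (ZMod m → Γ) → ZMod m := fun g => κ (fun l => φ (g l)) with hκdef
  have hRcls : IsCls p R := by
    refine ⟨?_, ?_⟩
    · intro w x hw
      show P (φ (x⁻¹ * w * x))
      rw [map_mul, map_mul, map_inv]
      exact hP.conj _ _ hw
    · intro x hx
      apply hP.npow (φ x)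
      rw [← map_pow]
      exact hx
  have hRconj : ∀ x y, IsConj x y → (R x ↔ R y) := by
    intro x y hxy
    obtain ⟨t, ht⟩ := isConj_iff.1 hxy
    rw [← ht]
    have := hRcls.conj_iff x t⁻¹
    rw [inv_inv] at this
    exact this.symm
  have hκ' : IsPh R κ' := by
    intro g hg c
    show κ (fun l => φ (shift c g l)) = κ (fun l => φ (g l)) + c
    have h1 := hκ (fun l => φ (g l)) (by rw [W_map]; exact hg) c
    rw [← h1]
    rfl
  set T : Finset (ConjClasses Γ) := T0 gr ∪
    (Finset.univ : Finset (ZMod m → Yy I S)).image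
      (fun o => ConjClasses.mk (W (UU gr o) 0)) with hT
  have hsum := sum_ei (gr := gr) (A := A) (B := B) h hb hA hB hRconj hPi
    (N := Nat.card Q) Nat.card_pos.ne' (by
      intro l hl x
      show P (φ (x ^ l)) ↔ P (φ x)
      have h1 : φ (x ^ l) = φ x := by
        rw [map_pow]
        have h2 : (φ x) ^ l = (φ x) ^ 1 := by
          rw [pow_eq_pow_iff_modEq]
          exact hl.of_dvd (orderOf_dvd_natCard _)
        rw [h2, pow_one]
      rw [h1]) (T := T) Finset.subset_union_left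
  -- the decomposition into classes
  have hdec : EE gr A B R κ' = ∑ C ∈ T with R (rep C),
      EE gr A B (fun w => IsConj (rep C) w) κ' := by
    unfold EE
    rw [Finset.sum_filter]
    simp_rw [Finset.sum_filter (s := (Finset.univ : Finset (ZMod m → Yy I S)))]
    rw [Finset.sum_comm]
    apply Finset.sum_congr rfl
    intro o _
    by_cases ho : κ' (UU gr o) = 0
    · have h1 : ∀ C : ConjClasses Γ, (if RR gr (fun w => IsConj (rep C) w) o ∧
          κ' (UU gr o) = 0 then wt A B o * ((κ' (VV gr o)).val : ℤ) else 0) =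
          if ConjClasses.mk (W (UU gr o) 0) = C then
            wt A B o * ((κ' (VV gr o)).val : ℤ) else 0 := by
        intro C
        have h2 : (RR gr (fun w => IsConj (rep C) w) o ∧ κ' (UU gr o) = 0) ↔
            ConjClasses.mk (W (UU gr o) 0) = C := by
          rw [← isConj_out_iff]
          exact ⟨fun h3 => h3.1, fun h3 => ⟨h3, ho⟩⟩
        simp only [h2]
      simp_rw [h1]
      rw [Finset.sum_ite_eq]
      by_cases hR' : RR gr R o
      · rw [if_pos ⟨hR', ho⟩, if_pos]
        rw [Finset.mem_filter]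
        refine ⟨Finset.mem_union_right _ (Finset.mem_image_of_mem _ (Finset.mem_univ o)), ?_⟩
        exact (hRconj _ _ (isConj_out _)).2 hR'
      · rw [if_neg (fun hc => hR' hc.1), if_neg]
        rw [Finset.mem_filter]
        rintro ⟨_, h2⟩
        exact hR' ((hRconj _ _ (isConj_out _)).1 h2)
    · rw [if_neg (fun hc => ho hc.2)]
      symm
      apply Finset.sum_eq_zero
      intro C _
      rw [if_neg (fun hc => ho hc.2)]
  have hnorm : padicNorm p ((EE gr A B R κ' : ℤ) : ℚ) ≤ (p : ℚ) ^ (-((i + 1 : ℕ) : ℤ)) := by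
    have h1 : ((EE gr A B R κ' : ℤ) : ℚ) = ∑ C ∈ T with R (rep C),
        (((EE gr A B (fun w => IsConj (rep C) w) κ' : ℤ) : ℚ) -
          ei gr A B hb (rep C)) := by
      rw [Finset.sum_sub_distrib, hsum, sub_zero, hdec, Int.cast_sum]
    rw [h1]
    apply padicNorm.sum_le'
    · intro C hC
      rw [Finset.mem_filter] at hC
      refine EE_near hp h hb ?_ ?_ hm ?_
      · exact hPi _ hC.2
      · intro x hx
        exact hRcls.npow x ((hRconj _ _ hx).1 hC.2)
      · exact hκ'.mono (fun g hg => (hRconj _ _ hg).1 hC.2)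
    · positivity
  exact_mod_cast (padicNorm.dvd_iff_norm_le (p := p)).2 hnorm

end main

end Pool.Agent.Y72.Fj
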