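import Pool.Agent.Y72.Fj.Uni
import Pool.Agent.Y72.Fj.Res

/-!
# Units over commutative subgroups
-/

set_option autoImplicit false
set_option linter.unusedSectionVars false

namespace Pool.Agent.Y72.Fj

open Finset Pool.Agent.Y72.Log
open scoped Classical

section zp

variable {R : Type*} [CommRing R]

lemma zpow_near (y : Rˣ) {q : ℤ} {z : R} (h : y.val = 1 + q • z) (e : ℤ) :
    ∃ w : R, (y ^ e).val = 1 + (e * q) • z + (q ^ 2) • w := by
  have hnat : ∀ (y : Rˣ) (z : R), y.val = 1 + q • z → ∀ n : ℕ,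
      ∃ w : R, (y ^ n).val = 1 + (n * q) • z + (q ^ 2) • w := by
    intro y z h n
    obtain ⟨c, hc, _⟩ := one_add_pow_eq (q • z) n
    refine ⟨z * z * c, ?_⟩
    rw [Units.val_pow_eq_pow_val, h, hc]
    simp only [zsmul_eq_mul]
    push_cast
    ring
  rcases Int.eq_nat_or_neg e with ⟨n, rfl | rfl⟩
  · obtain ⟨w, hw⟩ := hnat y z h n
    exact ⟨w, by rw [zpow_natCast, hw]⟩
  · have h1 : (y⁻¹).val = 1 + q • (-(z * (y⁻¹).val)) := by
      have h2 : y.val * (y⁻¹).val = 1 := Units.mul_inv y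
      rw [h] at h2
      simp only [zsmul_eq_mul] at h2 ⊢
      linear_combination h2
    obtain ⟨w, hw⟩ := hnat y⁻¹ _ h1 n
    refine ⟨n • (z * z * (y⁻¹).val) + w, ?_⟩
    rw [zpow_neg, zpow_natCast, ← inv_pow, hw]
    have h3 : z * (y⁻¹).val = z - q • (z * z * (y⁻¹).val) := by
      conv_lhs => rw [h1]
      simp only [zsmul_eq_mul]
      ring
    rw [h3]
    simp only [zsmul_eq_mul, nsmul_eq_mul]
    push_cast
    ring

end zp

section tr

variable {G n : Type*} [Group G] [Fintype G] [Fintype n] [DecidableEq n]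

/-- the sum of the traces over a class -/
noncomputable def TT (Y : Matrix n n (MonoidAlgebra ℤ G)) (g : G) : ℤ :=
  ∑ x : G, ∑ i, (Y i i).coeff (x * g * x⁻¹)

/-- the sum of the coefficients over a class -/
noncomputable def T1 (y : MonoidAlgebra ℤ G) (g : G) : ℤ := ∑ x : G, y.coeff (x * g * x⁻¹)

lemma TT_conj (Y : Matrix n n (MonoidAlgebra ℤ G)) (g x : G) : TT Y (x * g * x⁻¹) = TT Y g := by
  unfold TT
  refine Fintype.sum_equiv (Equiv.mulRight x) _ _ ?_
  intro y
  have h : y * (x * g * x⁻¹) * y⁻¹ = (y * x) * g * (y * x)⁻¹ := by group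
  rw [h]
  rfl

lemma TT_add (Y Z : Matrix n n (MonoidAlgebra ℤ G)) (g : G) : TT (Y + Z) g = TT Y g + TT Z g := by
  unfold TT
  rw [← Finset.sum_add_distrib]
  apply Finset.sum_congr rfl
  intro x _
  rw [← Finset.sum_add_distrib]
  rfl

lemma TT_smul (a : ℤ) (Y : Matrix n n (MonoidAlgebra ℤ G)) (g : G) : TT (a • Y) g = a * TT Y g := by
  unfold TT
  rw [Finset.mul_sum]
  apply Finset.sum_congr rfl
  intro x _
  rw [Finset.mul_sum]
  rfl

lemma TT_one {g : G} (hg : g ≠ 1) : TT (1 : Matrix n n (MonoidAlgebra ℤ G)) g = 0 := by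
  unfold TT
  apply Finset.sum_eq_zero
  intro x _
  apply Finset.sum_eq_zero
  intro i _
  rw [Matrix.one_apply_eq, MonoidAlgebra.one_def, MonoidAlgebra.coeff_single,
    Finsupp.single_apply, if_neg]
  intro h
  apply hg
  have h1 : x⁻¹ * 1 * x = g := by rw [h]; group
  rw [← h1]
  group

/-- powers of a matrix congruent to one -/
lemma TT_pow {Y Z : Matrix n n (MonoidAlgebra ℤ G)} {q : ℤ} (h : Y = 1 + q • Z) (e : ℕ) {g : G}
    (hg : g ≠ 1) : q ^ 2 ∣ TT (Y ^ e) g - e * TT Y g := by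
  obtain ⟨c, hc, _⟩ := one_add_pow_eq (q • Z) e
  have h1 : Y ^ e = 1 + (e : ℤ) • (q • Z) + (q ^ 2) • (Z * Z * c) := by
    rw [h, hc]
    congr 1
    · congr 1
      rw [← nsmul_eq_mul, natCast_zsmul]
    · rw [smul_mul_smul_comm, smul_mul_assoc, sq]
  rw [h1, TT_add, TT_add, TT_one hg, TT_smul, TT_smul, TT_smul, h, TT_add, TT_one hg, TT_smul]
  exact ⟨TT (Z * Z * c) g, by ring⟩

end tr

section du

variable {G n C : Type*} [Group G] [Fintype G] [Fintype n] [DecidableEq n] [CommGroup C]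
  [Fintype C] (ι : C →* G) (hι : Function.Injective ι)

/-- the determinant of the restriction of a unit -/
noncomputable def dv (X : (Matrix n n (MonoidAlgebra ℤ G))ˣ) : (MonoidAlgebra ℤ C)ˣ :=
  haveI : Fintype (G ⧸ ι.range) := Fintype.ofFinite _
  Units.map ({ toFun := fun Y => du (exists_equiv ι hι).choose ι (exists_equiv ι hι).choose_spec Y
               map_one' := du_one _ _ _
               map_mul' := fun Y Z => du_mul _ _ _ Y Z } :
    Matrix n n (MonoidAlgebra ℤ G) →* MonoidAlgebra ℤ C) X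

lemma dv_pow (X : (Matrix n n (MonoidAlgebra ℤ G))ˣ) (k : ℕ) :
    dv ι hι (X ^ k) = dv ι hι X ^ k := by
  unfold dv
  rw [map_pow]

lemma coeff_natCast_ne {c : C} (hc : c ≠ 1) (a : ℕ) :
    ((a : MonoidAlgebra ℤ C)).coeff c = 0 := by
  have h1 : ((a : MonoidAlgebra ℤ C)) = MonoidAlgebra.single 1 (a : ℤ) := by
    have := MonoidAlgebra.intCast_def (R := ℤ) (M := C) (a : ℤ)
    simpa using this
  rw [h1, MonoidAlgebra.coeff_single, Finsupp.single_apply, if_neg (fun h => hc h.symm)]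

/-- the determinant of the restriction of a matrix congruent to one -/
lemma dv_near (X : (Matrix n n (MonoidAlgebra ℤ G))ˣ) {Z : Matrix n n (MonoidAlgebra ℤ G)} {q : ℤ}
    (h : X.val = 1 + q • Z) : (∃ z : MonoidAlgebra ℤ C, (dv ι hι X).val = 1 + q • z) ∧
      ∀ c : C, c ≠ 1 → q ^ 2 ∣ (Fintype.card C : ℤ) * (dv ι hι X).val.coeff c - TT X.val (ι c) := by
  letI : Fintype (G ⧸ ι.range) := Fintype.ofFinite _
  set e := (exists_equiv ι hι).choose with he0
  have he := (exists_equiv ι hι).choose_spec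
  have hdv : (dv ι hι X).val = du e ι he X.val := rfl
  obtain ⟨c', hc'⟩ := du_near e ι he h
  constructor
  · have h1 : blkR (indR e ι he) X.val = 1 + ((q : ℤ) : MonoidAlgebra ℤ C) •
        blkR (indR e ι he) Z := by
      rw [h, map_add, map_one, map_zsmul]
      congr 1
      ext1 i j
      rw [Matrix.smul_apply, Matrix.smul_apply, zsmul_eq_mul, smul_eq_mul]
    refine ⟨(blkR (indR e ι he) Z).trace + q • c', ?_⟩
    rw [hdv, hc', h1, Matrix.trace_add, Matrix.trace_one, Matrix.trace_smul, smul_eq_mul]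
    simp only [zsmul_eq_mul]
    ring
  · intro c hc
    have h2 := trace_coeff e ι he X.val c
    have h3 : TT X.val (ι c) = ∑ x : G, ∑ i, (X.val i i).coeff (x * ι c * x⁻¹) := rfl
    rw [h3, ← h2, hdv, hc']
    have h4 : (((q : ℤ) : MonoidAlgebra ℤ C) ^ 2 * c') = (q ^ 2) • c' := by
      rw [zsmul_eq_mul]
      push_cast
      rfl
    rw [h4]
    have h5 : (1 + (blkR (indR e ι he) X.val).trace -
        (Fintype.card (n × (G ⧸ ι.range)) : MonoidAlgebra ℤ C) + (q ^ 2) • c').coeff c =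
        (blkR (indR e ι he) X.val).trace.coeff c + q ^ 2 * c'.coeff c := by
      rw [MonoidAlgebra.coeff_add, MonoidAlgebra.coeff_sub, MonoidAlgebra.coeff_add,
        MonoidAlgebra.coeff_smul]
      simp only [Finsupp.add_apply, Finsupp.sub_apply, Finsupp.smul_apply, smul_eq_mul]
      rw [coeff_natCast_ne hc, sub_zero]
      have h6 : (1 : MonoidAlgebra ℤ C).coeff c = 0 := by
        have := coeff_natCast_ne hc 1
        simpa using this
      rw [h6, zero_add]
    rw [h5]
    exact ⟨Fintype.card C * c'.coeff c, by ring⟩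

end du

section push

variable {G C : Type*} [Group G] [Fintype G] [CommGroup C] [Fintype C] (ι : C →* G)
  (hι : Function.Injective ι)

include hι in
lemma mp_coeff_inj (y : MonoidAlgebra ℤ C) (c : C) : (mp ι y).coeff (ι c) = y.coeff c := by
  show (Finsupp.mapDomain ι y.coeff) (ι c) = _
  exact Finsupp.mapDomain_apply hι _ c

lemma mp_coeff_notMem (y : MonoidAlgebra ℤ C) {g : G} (hg : g ∉ ι.range) :
    (mp ι y).coeff g = 0 := by
  show (Finsupp.mapDomain ι y.coeff) g = 0
  apply Finsupp.mapDomain_of_notMem_range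
  intro hc
  exact hg hc

/-- the class sums of a unit over a commutative subgroup -/
lemma T1_push {n : Type*} [Fintype n] [DecidableEq n] (Y : (Matrix n n (MonoidAlgebra ℤ G))ˣ)
    {Z : Matrix n n (MonoidAlgebra ℤ G)} {q : ℤ} (h : Y.val = 1 + q • Z) (b : ℤ) {g : G}
    (hg : g ≠ 1) : q ^ 2 ∣ T1 (mp ι (dv ι hι Y ^ ((Fintype.card C : ℤ) * b)).val) g -
      b * (((Finset.univ : Finset G).filter (fun x : G => x * g * x⁻¹ ∈ ι.range)).card : ℤ) *
        TT Y.val g := by
  obtain ⟨⟨z, hz⟩, hc⟩ := dv_near ι hι Y h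
  obtain ⟨w, hw⟩ := zpow_near (dv ι hι Y) hz ((Fintype.card C : ℤ) * b)
  have h1 : ∀ c : C, c ≠ 1 → q ^ 2 ∣
      (dv ι hι Y ^ ((Fintype.card C : ℤ) * b)).val.coeff c - b * TT Y.val (ι c) := by
    intro c hc1
    obtain ⟨s, hs⟩ := hc c hc1
    have h6 : (1 : MonoidAlgebra ℤ C).coeff c = 0 := by
      have := coeff_natCast_ne hc1 1
      simpa using this
    have h7 : (dv ι hι Y).val.coeff c = q * z.coeff c := by
      rw [hz, MonoidAlgebra.coeff_add, MonoidAlgebra.coeff_smul]
      simp only [Finsupp.add_apply, Finsupp.smul_apply, smul_eq_mul]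
      rw [h6, zero_add]
    have h8 : (dv ι hι Y ^ ((Fintype.card C : ℤ) * b)).val.coeff c =
        ((Fintype.card C : ℤ) * b * q) * z.coeff c + q ^ 2 * w.coeff c := by
      rw [hw, MonoidAlgebra.coeff_add, MonoidAlgebra.coeff_add, MonoidAlgebra.coeff_smul,
        MonoidAlgebra.coeff_smul]
      simp only [Finsupp.add_apply, Finsupp.smul_apply, smul_eq_mul]
      rw [h6, zero_add]
    rw [h7] at hs
    refine ⟨b * s + w.coeff c, ?_⟩
    rw [h8]
    linear_combination b * hs
  have h2 : ∀ x : G, q ^ 2 ∣ (mp ι (dv ι hι Y ^ ((Fintype.card C : ℤ) * b)).val).coeff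
      (x * g * x⁻¹) - (if x * g * x⁻¹ ∈ ι.range then b * TT Y.val g else 0) := by
    intro x
    by_cases hx : x * g * x⁻¹ ∈ ι.range
    · rw [if_pos hx]
      obtain ⟨c, hc'⟩ := hx
      rw [← hc', mp_coeff_inj ι hι]
      have h3 : TT Y.val g = TT Y.val (ι c) := by rw [hc', TT_conj]
      rw [h3]
      apply h1
      rintro rfl
      rw [map_one] at hc'
      apply hg
      have h4 : x⁻¹ * 1 * x = g := by rw [hc']; group
      rw [← h4]
      group
    · rw [if_neg hx, mp_coeff_notMem ι _ hx, sub_zero]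
      exact dvd_zero _
  have h3 : T1 (mp ι (dv ι hι Y ^ ((Fintype.card C : ℤ) * b)).val) g -
      b * (((Finset.univ : Finset G).filter (fun x : G => x * g * x⁻¹ ∈ ι.range)).card : ℤ) *
        TT Y.val g = ∑ x : G, ((mp ι (dv ι hι Y ^ ((Fintype.card C : ℤ) * b)).val).coeff
      (x * g * x⁻¹) - (if x * g * x⁻¹ ∈ ι.range then b * TT Y.val g else 0)) := by
    rw [Finset.sum_sub_distrib, ← Finset.sum_filter, Finset.sum_const, nsmul_eq_mul]
    unfold T1
    ring
  rw [h3]
  exact Finset.dvd_sum (fun x _ => h2 x)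

end push

end Pool.Agent.Y72.Fj
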