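import Pool.Agent.Y72.Fj.Core
import Pool.Agent.Y72.Log.CenLin2

/-!
# Linear groups with torsion
-/

set_option autoImplicit false
set_option linter.unusedSectionVars false

namespace Pool.Agent.Y72.Fj

open Finset Pool.Agent.Y72.Log
open scoped Classical

section main

variable {Γ k : Type*} [Group Γ] [Field k] {N : ℕ}

/-- **linear groups** -/
theorem cenI_linear (φ : Γ →* GL (Fin N) k) (H : Subgroup Γ) (hH : H.FG)
    (hU : ∀ c : H, ¬ IsOfFinOrder c → IsNilpotent ((φ c.1).val - 1) →
      ∃ f : H → ℤ, AddOn c f ∧ f c ≠ 0) : CenI H := by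
  intro c hc
  haveI : Group.FG H := (Group.fg_iff_subgroup_fg H).2 hH
  let f : k →+* AlgebraicClosure k := algebraMap k (AlgebraicClosure k)
  let ψ : H →* GL (Fin N) (AlgebraicClosure k) :=
    (Matrix.GeneralLinearGroup.map f).comp (φ.comp H.subtype)
  have hψ : ∀ h : H, (ψ h).val = f.mapMatrix (φ h.1).val := fun h => rfl
  by_cases hex : ∃ x : AlgebraicClosure k, (ψ c).val.charpoly.IsRoot x ∧
      ∀ n : ℕ, 0 < n → x ^ n ≠ 1
  · obtain ⟨x, hx, hxn⟩ := hex
    obtain ⟨p, hp⟩ := CharP.exists k
    rcases CharP.char_is_prime_or_zero k p with hp1 | hp1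
    · haveI : Fact p.Prime := ⟨hp1⟩
      haveI : CharP (AlgebraicClosure k) p := charP_of_injective_algebraMap f.injective p
      letI : Algebra (ZMod p) (AlgebraicClosure k) := ZMod.algebra _ p
      apply cen_trans ψ (ZMod p) c hx
      intro halg
      have hx0 : x ≠ 0 := by
        rintro rfl
        have h1 : IsUnit (ψ c).val.det := (Matrix.isUnit_iff_isUnit_det _).1 (ψ c).isUnit
        apply h1.ne_zero
        have h2 : (ψ c).val.charpoly.eval 0 = 0 := hx
        rw [Matrix.eval_charpoly, map_zero, zero_sub, Matrix.det_neg] at h2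
        rcases mul_eq_zero.1 h2 with h3 | h3
        · exact absurd h3 (pow_ne_zero _ (neg_ne_zero.2 one_ne_zero))
        · exact h3
      obtain ⟨n, hn, h1⟩ := rootOfUnity_of_algebraic halg hx0
      exact hxn n hn h1
    · subst hp1
      haveI : CharZero k := CharP.charP_to_charZero k
      haveI : CharZero (AlgebraicClosure k) := charZero_of_injective_algebraMap f.injective
      by_cases halg : IsAlgebraic ℚ x
      · exact cen_alg ψ c hx halg hxn
      · exact cen_trans ψ ℚ c hx halg
  · push Not at hex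
    obtain ⟨n, hn, h1⟩ := exists_unip (ψ c).val (fun x hx => by
      obtain ⟨n, hn, h2⟩ := hex x hx
      exact ⟨n, hn, h2⟩)
    have h2 : IsNilpotent ((φ (c ^ n).1).val - 1) := by
      obtain ⟨s, hs⟩ := h1
      refine ⟨s, ?_⟩
      have hinj : Function.Injective (f.mapMatrix : Matrix (Fin N) (Fin N) k →+* _) := by
        intro X Y hXY
        ext i j
        apply f.injective
        exact congrFun (congrFun hXY i) j
      apply hinj
      rw [map_zero, map_pow, map_sub, map_one, Subgroup.coe_pow, map_pow,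
        Units.val_pow_eq_pow_val, map_pow, ← hψ]
      exact hs
    obtain ⟨F, hF, hF0⟩ := hU (c ^ n) (pow_inf hc hn.ne') h2
    have h3 : ∀ x : H, x * c = c * x → x * c ^ n = c ^ n * x := fun x hx =>
      ((show Commute x c from hx).pow_right n).eq
    refine ⟨F, fun x y hx hy => hF x y (h3 x hx) (h3 y hy), ?_⟩
    intro h4
    apply hF0
    rw [hF.pow (h3 c rfl), h4, smul_zero]

/-- in positive characteristic there are no unipotent elements of infinite order -/
lemma unip_fin {p : ℕ} [Fact p.Prime] [CharP k p] (φ : Γ →* GL (Fin N) k)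
    (hφ : Function.Injective φ) (g : Γ) (hg : IsNilpotent ((φ g).val - 1)) : IsOfFinOrder g := by
  obtain ⟨n, hn, h1⟩ := unip_order (p := p) hg
  refine isOfFinOrder_iff_pow_eq_one.2 ⟨n, hn, ?_⟩
  apply hφ
  rw [map_pow, map_one]
  apply Units.ext
  rw [Units.val_pow_eq_pow_val, h1]
  rfl

end main

end Pool.Agent.Y72.Fj
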