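import Pool.Agent.Y72.Log.Rep2

/-!
# Uniform orders of determinants
-/

set_option autoImplicit false
set_option linter.unusedSectionVars false

namespace Pool.Agent.Y72.Fj

open Finset Pool.Agent.Y72.Log
open scoped Classical

section lift

variable {R : Type*} [CommRing R]

/-- **powers converging too fast** -/
theorem torsion_of_fast' {p : ℕ} (hp : p.Prime) (htf : ∀ x : R, (p : R) * x = 0 → x = 0)
    (hsep : ∀ x : R, x ≠ 0 → ∃ b : ℕ, ¬ (p : R) ^ b ∣ x) {y : R} {k D : ℕ} (hk : 0 < k)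
    (hD : 0 < D)
    (h : ∀ a : ℕ, 1 ≤ a → (p : R) ^ (2 * a) ∣ (D : R) * (y ^ (k * p ^ (a - 1)) - 1)) :
    y ^ (k * p ^ (D + 1)) = 1 := by
  have htf' : ∀ (b : ℕ) (x : R), (p : R) ^ b * x = 0 → x = 0 := by
    intro b
    induction b with
    | zero => intro x hx; simpa using hx
    | succ b ih =>
      intro x hx
      apply htf
      apply ih
      rw [← hx]
      ring
  obtain ⟨v, D', hD', hDe⟩ := Nat.exists_eq_pow_mul_and_not_dvd hD.ne' p hp.ne_one
  have hvD : v ≤ D := by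
    have e1 : v < p ^ v := Nat.lt_pow_self hp.one_lt
    have e2 : p ^ v ≤ D := Nat.le_of_dvd hD ⟨D', hDe⟩
    omega
  suffices hs : y ^ (k * p ^ (v + 2 - 1)) = 1 by
    have e3 : k * p ^ (D + 1) = (k * p ^ (v + 2 - 1)) * p ^ (D - v) := by
      rw [mul_assoc, ← pow_add]
      congr 2
      omega
    rw [e3, pow_mul, hs, one_pow]
  subst hDe
  -- remove the denominator
  have h1 : ∀ a : ℕ, 1 ≤ a → v ≤ a → (p : R) ^ a ∣ y ^ (k * p ^ (a - 1)) - 1 ∧
      (p : R) ^ (2 * a - v) ∣ y ^ (k * p ^ (a - 1)) - 1 := by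
    intro a ha hva
    have h2 : (p : R) ^ (2 * a - v) ∣ y ^ (k * p ^ (a - 1)) - 1 := by
      obtain ⟨c, hc⟩ := h a ha
      have h3 : (D' : R) * (y ^ (k * p ^ (a - 1)) - 1) = (p : R) ^ (2 * a - v) * c := by
        rw [← sub_eq_zero]
        apply htf' v
        rw [mul_sub, sub_eq_zero, ← mul_assoc, ← mul_assoc, ← pow_add,
          Nat.add_sub_cancel' (by omega), ← hc]
        push_cast
        ring
      have h4 : IsCoprime ((p : R) ^ (2 * a - v)) (D' : R) := by
        apply IsCoprime.pow_left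
        have h5 : IsCoprime ((p : ℕ) : ℤ) (D' : ℤ) :=
          Nat.isCoprime_iff_coprime.2 ((Nat.Prime.coprime_iff_not_dvd hp).2 hD')
        have h6 := h5.map (Int.castRingHom R)
        simpa using h6
      exact h4.dvd_of_dvd_mul_left (Dvd.intro c h3.symm)
    exact ⟨dvd_trans (pow_dvd_pow _ (by omega)) h2, h2⟩
  set a0 := v + 2 with ha0
  set z := y ^ (k * p ^ (a0 - 1)) with hz
  by_contra hne
  have hne' : z - 1 ≠ 0 := sub_ne_zero.2 hne
  -- the exact power
  have hex : ∃ b : ℕ, ¬ (p : R) ^ b ∣ z - 1 := hsep _ hne'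
  classical
  obtain ⟨b0, hb1, hmin⟩ : ∃ b0 : ℕ, ¬ (p : R) ^ b0 ∣ z - 1 ∧
      ∀ m < b0, (p : R) ^ m ∣ z - 1 :=
    ⟨Nat.find hex, Nat.find_spec hex, fun m hm => not_not.1 (Nat.find_min hex hm)⟩
  have hb3 : 2 < b0 := by
    by_contra hc
    apply hb1
    exact dvd_trans (pow_dvd_pow _ (by omega)) (h1 a0 (by omega) (by omega)).1
  have hb2 : (p : R) ^ (b0 - 1) ∣ z - 1 := hmin _ (by omega)
  obtain ⟨w, hw⟩ := hb2
  have hw1 : ¬ (p : R) ∣ w := by
    rintro ⟨w', rfl⟩
    apply hb1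
    refine ⟨w', ?_⟩
    have h5 : b0 = (b0 - 1) + 1 := by omega
    rw [hw, ← mul_assoc, ← pow_succ, ← h5]
  -- go up
  set j := b0 with hj
  obtain ⟨c, hc⟩ := steps (p := p) (b := b0 - 1) (by omega) (z := z) (w := w)
    (by rw [← hw]; ring) j
  have h6 := (h1 (a0 + j) (by omega) (by omega)).2
  have h7 : y ^ (k * p ^ (a0 + j - 1)) = z ^ (p ^ j) := by
    rw [hz, ← pow_mul]
    congr 1
    rw [mul_assoc, ← pow_add]
    congr 2
    omega
  rw [h7, hc, add_sub_cancel_left] at h6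
  have h8 : (p : R) ^ (b0 - 1 + j + 1) ∣ (p : R) ^ (b0 - 1 + j) * (w + p * c) :=
    dvd_trans (pow_dvd_pow _ (by omega)) h6
  obtain ⟨e, he⟩ := h8
  apply hw1
  have h9 : w + p * c = p * e := by
    rw [← sub_eq_zero]
    apply htf' (b0 - 1 + j)
    rw [mul_sub, sub_eq_zero, he]
    ring
  exact ⟨e - c, by rw [mul_sub, ← h9]; ring⟩

end lift

section main

variable {G n : Type*} [Group G] [Fintype G] [Fintype n] [DecidableEq n]

/-- weak form of the congruences -/
def MCw (X : (Matrix n n (MonoidAlgebra ℤ G))ˣ) : Prop :=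
  ∀ p : ℕ, p.Prime → ∃ k : ℕ, 0 < k ∧
    (∃ Z : Matrix n n (MonoidAlgebra ℤ G), X.val ^ k = 1 + (p : ℤ) • Z) ∧
    ∀ a : ℕ, 1 ≤ a → ∀ g : G, p ∣ orderOf g → (p : ℤ) ^ (2 * a) ∣
      ∑ x : G, ∑ i, ((X.val ^ (k * p ^ (a - 1))) i i).coeff (x * g * x⁻¹)

variable {C T : Type*} [CommGroup C] [Fintype C] [Fintype T] [DecidableEq T] (e : G ≃ T × C)
  (ι : C →* G) (he : ∀ z c, e (z * ι c) = ((e z).1, (e z).2 * c))

/-- one prime -/
lemma one_prime' (hι : Function.Injective ι) (X : (Matrix n n (MonoidAlgebra ℤ G))ˣ) (hX : MCw X)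
    {p : ℕ} (hp : p.Prime) {m : ℕ} (hm : ∀ c : C, ¬ p ∣ orderOf c → c ^ m = c) :
    ∃ N : ℕ, 0 < N ∧ em m (du e ι he X.val) ^ N = du e ι he X.val ^ N := by
  set u := du e ι he X.val with hu
  set u' := du e ι he (X⁻¹).val with hu'
  have huu : u * u' = 1 := by
    rw [hu, hu', ← du_mul, Units.mul_inv, du_one]
  obtain ⟨k, hk, ⟨Z, hZ⟩, hT⟩ := hX p hp
  have hk2 : ∀ a : ℕ, 1 ≤ a → ∃ W : Matrix n n (MonoidAlgebra ℤ G),
      X.val ^ (k * p ^ (a - 1)) = 1 + ((p : ℤ) ^ a) • W := by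
    intro a ha
    obtain ⟨W, hW⟩ := pow_near hZ (a - 1)
    rw [Nat.sub_add_cancel ha] at hW
    exact ⟨W, by rw [pow_mul, hW]⟩
  have h1 : ∃ N : ℕ, 0 < N ∧ (u * em m u') ^ N = 1 := by
    apply torsion_of_fast hp (fun x hx => tf_alg hp x hx) (fun x hx => sep_alg hp x hx) hk
      (Fintype.card_pos (α := C))
    intro a ha
    obtain ⟨W, hW⟩ := hk2 a ha
    set K := k * p ^ (a - 1) with hK
    obtain ⟨c, hc⟩ := du_near e ι he hW
    rw [du_pow, ← hu] at hc
    set tr := (blkR (indR e ι he) (X.val ^ K)).trace with htr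
    obtain ⟨y, hy⟩ := sub_em (m := m) ((Fintype.card C : ℤ) • tr) ((p : ℤ) ^ (2 * a)) (by
      intro g
      by_cases hg : p ∣ orderOf g
      · right
        rw [MonoidAlgebra.coeff_smul, Finsupp.smul_apply, smul_eq_mul, htr, trace_coeff]
        apply hT a ha
        rw [orderOf_injective ι hι]
        exact hg
      · left
        exact hm g hg)
    have h2 : (Fintype.card C : MonoidAlgebra ℤ C) * (u ^ K - em m u ^ K) =
        (p : MonoidAlgebra ℤ C) ^ (2 * a) *
        (y + (Fintype.card C : MonoidAlgebra ℤ C) * (c - em m c)) := by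
      rw [← map_pow, hc]
      simp only [map_sub, map_add, map_mul, map_one, map_pow, map_natCast, map_intCast]
      have h3 : (Fintype.card C : MonoidAlgebra ℤ C) * (tr - em m tr) =
          (p : MonoidAlgebra ℤ C) ^ (2 * a) * y := by
        rw [map_zsmul, ← smul_sub, zsmul_eq_mul, zsmul_eq_mul] at hy
        push_cast at hy
        exact hy
      have h4 : (((p : ℤ) ^ a : ℤ) : MonoidAlgebra ℤ C) ^ 2 =
          (p : MonoidAlgebra ℤ C) ^ (2 * a) := by
        push_cast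
        rw [← pow_mul, mul_comm a 2]
      rw [h4, mul_add, ← h3]
      ring
    have h5 : (u * em m u') ^ K - 1 = (u ^ K - em m u ^ K) * em m u' ^ K := by
      have h6 : em m u * em m u' = 1 := by rw [← map_mul, huu, map_one]
      rw [mul_pow, sub_mul, ← mul_pow (em m u), h6, one_pow]
    rw [h5, ← mul_assoc, h2, mul_assoc]
    exact Dvd.intro _ rfl
  obtain ⟨N, hN, h2⟩ := h1
  refine ⟨N, hN, ?_⟩
  have h6 : em m u' * em m u = 1 := by rw [← map_mul, mul_comm u', huu, map_one]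
  calc em m u ^ N = (u * em m u') ^ N * em m u ^ N := by rw [h2, one_mul]
    _ = u ^ N := by
      rw [← mul_pow, mul_assoc, h6, mul_one]

/-- **the determinant over a commutative subgroup has finite order** -/
theorem du_torsion' (hι : Function.Injective ι) (X : (Matrix n n (MonoidAlgebra ℤ G))ˣ)
    (hX : MCw X) : ∃ N : ℕ, 0 < N ∧ du e ι he X.val ^ N = 1 := by
  set u := du e ι he X.val with hu
  set u' := du e ι he (X⁻¹).val with hu'
  have huu : u * u' = 1 := by
    rw [hu, hu', ← du_mul, Units.mul_inv, du_one]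
  have h1 : ∀ p : ℕ, ∃ m : ℕ, p.Prime → (p ^ ((Fintype.card C).factorization p) ∣ m ∧
      ∀ c : C, ¬ p ∣ orderOf c → c ^ m = c) := by
    intro p
    by_cases hp : p.Prime
    · obtain ⟨m, hm⟩ := exists_exp (C := C) hp
      exact ⟨m, fun _ => hm⟩
    · exact ⟨0, fun h => absurd h hp⟩
  choose μ hμ using h1
  have h2 : ∀ s : Finset ℕ, (∀ p ∈ s, p.Prime) →
      ∃ N : ℕ, 0 < N ∧ em (∏ p ∈ s, μ p) u ^ N = u ^ N := by
    intro s
    induction s using Finset.induction_on with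
    | empty =>
      intro _
      exact ⟨1, one_pos, by rw [Finset.prod_empty, em_one]⟩
    | insert p s hps ih =>
      intro hs
      obtain ⟨N, hN, h3⟩ := ih (fun q hq => hs q (Finset.mem_insert_of_mem hq))
      have hp := hs p (Finset.mem_insert_self p s)
      obtain ⟨N', hN', h4⟩ := one_prime' e ι he hι X hX hp (hμ p hp).2
      refine ⟨N * N', Nat.mul_pos hN hN', ?_⟩
      rw [Finset.prod_insert hps, ← em_mul]
      calc em (μ p) (em (∏ p ∈ s, μ p) u) ^ (N * N') =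
          (em (μ p) (em (∏ p ∈ s, μ p) u ^ N)) ^ N' := by rw [map_pow, ← pow_mul]
        _ = (em (μ p) u ^ N') ^ N := by rw [h3, map_pow, ← pow_mul, ← pow_mul, mul_comm]
        _ = u ^ (N * N') := by rw [h4, ← pow_mul, mul_comm]
  obtain ⟨N, hN, h3⟩ := h2 (Fintype.card C).primeFactors
    (fun p hp => Nat.prime_of_mem_primeFactors hp)
  set m := ∏ p ∈ (Fintype.card C).primeFactors, μ p with hm
  have h4 : Fintype.card C ∣ m := by
    have hcard : Fintype.card C ≠ 0 := Fintype.card_ne_zero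
    conv_lhs => rw [← Nat.prod_factorization_pow_eq_self hcard]
    rw [Finsupp.prod, Nat.support_factorization]
    exact Finset.prod_dvd_prod_of_dvd _ _ (fun p hp => (hμ p (Nat.prime_of_mem_primeFactors hp)).1)
  have h5 : ∀ x : MonoidAlgebra ℤ C, ∃ a : ℤ, em m x = ((a : ℤ) : MonoidAlgebra ℤ C) := by
    intro x
    induction x using MonoidAlgebra.induction_linear with
    | zero => exact ⟨0, by rw [map_zero, Int.cast_zero]⟩
    | add x y hx hy =>
      obtain ⟨a, ha⟩ := hx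
      obtain ⟨b, hb⟩ := hy
      exact ⟨a + b, by rw [map_add, ha, hb, Int.cast_add]⟩
    | single c a =>
      refine ⟨a, ?_⟩
      have h6 : c ^ m = 1 := by
        rw [← orderOf_dvd_iff_pow_eq_one]
        exact orderOf_dvd_card.trans h4
      rw [em_single, h6]
      exact (MonoidAlgebra.intCast_def a).symm
  obtain ⟨a, ha⟩ := h5 u
  obtain ⟨b, hb⟩ := h5 u'
  have h7 : ((a * b : ℤ) : MonoidAlgebra ℤ C) = 1 := by
    rw [Int.cast_mul, ← ha, ← hb, ← map_mul, huu, map_one]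
  have h8 : a * b = 1 := by
    rw [MonoidAlgebra.intCast_def, MonoidAlgebra.one_def] at h7
    exact_mod_cast MonoidAlgebra.single_right_injective h7
  have h9 : a ^ 2 = 1 := by
    rcases Int.mul_eq_one_iff_eq_one_or_neg_one.1 h8 with h | h
    · rw [h.1]; norm_num
    · rw [h.1]; norm_num
  refine ⟨N * 2, Nat.mul_pos hN two_pos, ?_⟩
  rw [pow_mul, ← h3, ha, ← pow_mul, mul_comm, pow_mul, ← Int.cast_pow, h9, Int.cast_one, one_pow]

end main

section sums

variable {G n : Type*} [Group G] [Fintype G] [Fintype n] [DecidableEq n]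

/-- one element -/
lemma exists_order' (X : (Matrix n n (MonoidAlgebra ℤ G))ˣ) (hX : MCw X) (g : G) :
    ∃ N : ℕ, 0 < N ∧ ∀ K : ℕ, N ∣ K → ∀ q : ℤ,
      (∃ W : Matrix n n (MonoidAlgebra ℤ G), X.val ^ K = 1 + q • W) →
      q ^ 2 ∣ ∑ x : G, ∑ i, ((X.val ^ K) i i).coeff (x * g * x⁻¹) -
        (if g = 1 then (Fintype.card n : ℤ) * Fintype.card G else 0) := by
  letI hC : CommGroup (Subgroup.zpowers g) :=
    { (inferInstance : Group (Subgroup.zpowers g)) with
      mul_comm := by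
        intro w x
        obtain ⟨j, hj⟩ := w.2
        obtain ⟨k, hk⟩ := x.2
        apply Subtype.ext
        show (w : G) * x = x * w
        rw [← hj, ← hk]
        exact (Commute.zpow_zpow_self g j k) }
  haveI : Fintype (Subgroup.zpowers g) := Fintype.ofFinite _
  let ι : Subgroup.zpowers g →* G := (Subgroup.zpowers g).subtype
  obtain ⟨e, he⟩ := exists_equiv ι (Subgroup.subtype_injective _)
  haveI : Fintype (G ⧸ ι.range) := Fintype.ofFinite _
  obtain ⟨N, hN, hu⟩ := du_torsion' e ι he (Subgroup.subtype_injective _) X hX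
  refine ⟨N, hN, ?_⟩
  rintro K ⟨K', rfl⟩ q ⟨W, hW⟩
  obtain ⟨c, hc⟩ := du_near e ι he hW
  rw [du_pow, pow_mul, hu, one_pow] at hc
  have h1 := trace_coeff e ι he (X.val ^ (N * K')) (⟨g, Subgroup.mem_zpowers g⟩ : Subgroup.zpowers g)
  have h2 : ι (⟨g, Subgroup.mem_zpowers g⟩ : Subgroup.zpowers g) = g := rfl
  rw [h2] at h1
  rw [← h1]
  have h3 : (blkR (indR e ι he) (X.val ^ (N * K'))).trace =
      ((Fintype.card (n × (G ⧸ ι.range)) : ℤ) : MonoidAlgebra ℤ (Subgroup.zpowers g)) -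
        (q ^ 2) • c := by
    rw [zsmul_eq_mul]
    push_cast
    linear_combination -hc
  rw [h3, MonoidAlgebra.coeff_sub, Finsupp.sub_apply, MonoidAlgebra.coeff_smul,
    Finsupp.smul_apply, MonoidAlgebra.intCast_def, MonoidAlgebra.coeff_single,
    Finsupp.single_apply]
  have h4 : Fintype.card G = Fintype.card (G ⧸ ι.range) * Fintype.card (Subgroup.zpowers g) := by
    rw [← Fintype.card_prod]
    exact Fintype.card_congr e
  refine ⟨-((Fintype.card (Subgroup.zpowers g) : ℤ) * c.coeff ⟨g, Subgroup.mem_zpowers g⟩), ?_⟩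
  by_cases hg : g = 1
  · rw [if_pos hg, if_pos (Subtype.ext hg.symm), h4, Fintype.card_prod, smul_eq_mul]
    push_cast
    ring
  · rw [if_neg hg, if_neg (fun h => hg (congrArg Subtype.val h).symm), smul_eq_mul]
    ring

/-- all elements -/
lemma exists_order_all' (X : (Matrix n n (MonoidAlgebra ℤ G))ˣ) (hX : MCw X) :
    ∃ N : ℕ, 0 < N ∧ ∀ K : ℕ, N ∣ K → ∀ q : ℤ,
      (∃ W : Matrix n n (MonoidAlgebra ℤ G), X.val ^ K = 1 + q • W) → ∀ g : G,
      q ^ 2 ∣ ∑ x : G, ∑ i, ((X.val ^ K) i i).coeff (x * g * x⁻¹) -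
        (if g = 1 then (Fintype.card n : ℤ) * Fintype.card G else 0) := by
  have h1 := fun g => exists_order' X hX g
  choose N hN h2 using h1
  refine ⟨∏ g, N g, Finset.prod_pos (fun g _ => hN g), ?_⟩
  intro K hK q hq g
  exact h2 g K (dvd_trans (Finset.dvd_prod_of_mem N (Finset.mem_univ g)) hK) q hq

end sums

section rep

variable {G n d F : Type*} [Group G] [Fintype G] [Fintype n] [Fintype d] [DecidableEq n]
  [DecidableEq d] [Field F]

/-- the version of `torsion_of_fast` for algebraic integers -/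
lemma torsion_field' {F : Type*} [Field F] [CharZero F] {p : ℕ} (hp : p.Prime) {y : F}
    (hy : IsIntegral ℤ y) {k D : ℕ} (hk : 0 < k) (hD : 0 < D)
    (h : ∀ a : ℕ, 1 ≤ a → ∃ θ : F, IsIntegral ℤ θ ∧
      (D : F) * (y ^ (k * p ^ (a - 1)) - 1) = (p : F) ^ (2 * a) * θ) :
    y ^ (k * p ^ (D + 1)) = 1 := by
  have h2 : (⟨y, hy⟩ : integralClosure ℤ F) ^ (k * p ^ (D + 1)) = 1 := by
    apply torsion_of_fast' hp (k := k) (D := D) _ (fun x hx => sep_int hp x hx) hk hD
    · intro a ha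
      obtain ⟨θ, hθ, h2⟩ := h a ha
      refine ⟨⟨θ, hθ⟩, ?_⟩
      apply Subtype.ext
      push_cast
      exact h2
    · intro x hx
      apply Subtype.ext
      have h2 := congrArg (fun t : integralClosure ℤ F => (t : F)) hx
      push_cast at h2
      rcases mul_eq_zero.1 h2 with h3 | h3
      · exact absurd (by exact_mod_cast h3) hp.ne_zero
      · exact h3
  have h3 := congrArg (fun t : integralClosure ℤ F => (t : F)) h2
  push_cast at h3
  exact h3

/-- the case of an algebraically closed field -/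
lemma det_rep_closed' (X : (Matrix n n (MonoidAlgebra ℤ G))ˣ)
    (hX : MCw X) : ∃ M : ℕ, 0 < M ∧ ∀ (F : Type*) [Field F] [IsAlgClosed F] [CharZero F]
    (d : Type) [Fintype d] [DecidableEq d] (ρ : G →* Matrix d d F),
    (blkR (lr ρ) X.val).det ^ M = 1 := by
  obtain ⟨N, hN, hN2⟩ := exists_order_all' X hX
  have hp : (3 : ℕ).Prime := Nat.prime_three
  obtain ⟨k, hk, Z, hZ⟩ := exists_pow_near (X ^ N) hp
  rw [Units.val_pow_eq_pow_val] at hZ
  refine ⟨N * (k * 3 ^ (Fintype.card G + 1)), Nat.mul_pos hN (Nat.mul_pos hk (by positivity)), ?_⟩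
  intro F _ _ _ d _ _ ρ
  have hYi : IsIntegral ℤ (blkR (lr ρ) X.val).det := det_integral (blkR_integral ρ X.val)
  rw [pow_mul]
  apply torsion_field' hp (hYi.pow N) hk (D := Fintype.card G) Fintype.card_pos
  intro a ha
  obtain ⟨W, hW⟩ := pow_near hZ (a - 1)
  rw [Nat.sub_add_cancel ha, ← pow_mul, ← pow_mul, ← mul_assoc] at hW
  obtain ⟨θ, hθ, h2⟩ := det_cong (X.val ^ (N * k * 3 ^ (a - 1))) W ρ
    (q := ((3 : ℕ) : ℤ) ^ a) (pow_ne_zero _ (by norm_num)) hW
    (hN2 _ ⟨k * 3 ^ (a - 1), by rw [mul_assoc]⟩ _ ⟨W, hW⟩)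
  refine ⟨θ, hθ, ?_⟩
  have h3 : ((blkR (lr ρ) X.val).det ^ N) ^ (k * 3 ^ (a - 1)) =
      (blkR (lr ρ) (X.val ^ (N * k * 3 ^ (a - 1)))).det := by
    rw [← pow_mul, map_pow, Matrix.det_pow, mul_assoc]
  rw [h3, h2]
  congr 1
  push_cast
  rw [← pow_mul, mul_comm]

/-- **determinants of representations of finite groups, uniform order** -/
theorem det_rep' (X : (Matrix n n (MonoidAlgebra ℤ G))ˣ)
    (hX : MCw X) : ∃ M : ℕ, 0 < M ∧ ∀ (F : Type*) [Field F] [CharZero F]
    (d : Type) [Fintype d] [DecidableEq d] (ρ : G →* Matrix d d F),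
    (blkR (lr ρ) X.val).det ^ M = 1 := by
  obtain ⟨M, hM, h0⟩ := det_rep_closed' X hX
  refine ⟨M, hM, ?_⟩
  intro F _ _ d _ _ ρ
  let f : F →+* AlgebraicClosure F := algebraMap F (AlgebraicClosure F)
  let ρ' : G →* Matrix d d (AlgebraicClosure F) := (f.mapMatrix.toMonoidHom).comp ρ
  haveI : CharZero (AlgebraicClosure F) := charZero_of_injective_algebraMap f.injective
  have h1 := h0 (AlgebraicClosure F) d ρ'
  apply f.injective
  rw [map_pow, RingHom.map_det, map_one, ← h1]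
  congr 2
  ext1 i j
  show f (lr ρ (X.val i.1 j.1) i.2 j.2) = lr ρ' (X.val i.1 j.1) i.2 j.2
  rw [lr_apply, lr_apply, Matrix.sum_apply, Matrix.sum_apply, map_sum]
  apply Finset.sum_congr rfl
  intro g _
  rw [Matrix.smul_apply, Matrix.smul_apply, map_zsmul]
  rfl

end rep

end Pool.Agent.Y72.Fj
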